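import Pool.Agent.Lib_Inner.Vocab

/-!
# The vocabulary of the theorem

`(M, E)` is a structure for the language of set theory; all quantifiers range over `M`, so each
notion is the relativisation to `(M, E)` of the usual first-order definition.
-/

namespace Pool.Agent.FreeSets

open Pool.Agent.Inner

universe w

variable {M : Type w} (E : M → M → Prop)

/-- `x` is a transitive set -/
def IsTrans (x : M) : Prop := ∀ y, E y x → ∀ z, E z y → E z x

/-- `x` is an ordinal: a transitive set of transitive sets -/
def IsOrd (x : M) : Prop := IsTrans E x ∧ ∀ y, E y x → IsTrans E y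

/-- `i` is an injective function from `a` to `b` -/
def IsInj (i a b : M) : Prop :=
  IsFun E i a b ∧ ∀ x x' y, Val E i x y → Val E i x' y → x = x'

/-- `x` is a cardinal: an ordinal without injections into its elements -/
def IsCard (x : M) : Prop := IsOrd E x ∧ ∀ y, E y x → ∀ i, ¬ IsInj E i x y

/-- `k` is the cardinal successor of `l` -/
def IsSuccCard (l k : M) : Prop := IsCard E k ∧ E l k ∧ ∀ a, E a k → ∃ i, IsInj E i a l

/-- `c` is a function from `a` to `b` with cofinal range -/
def IsCofinalMap (c a b : M) : Prop :=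
  IsFun E c a b ∧ ∀ x, E x b → ∃ n y, Val E c n y ∧ (x = y ∨ E x y)

/-- `l` is an uncountable cardinal of cofinality `ω`; `om` is the set `ω` -/
def SingularCofOmega (om l : M) : Prop :=
  IsOmega E om ∧ IsCard E l ∧ E om l ∧ ∃ c, IsCofinalMap E c om l

/-- `s` is a function, and every subset of `a` is `s(x)` for some `x ∈ b` (so `a` has at most
`|b|` subsets) -/
def OntoPow (s b a : M) : Prop :=
  (∀ x y y', Val E s x y → Val E s x y' → y = y') ∧ ∀ z, Sub E z a → ∃ x, E x b ∧ Val E s x z

/-- `l` is a strong limit: for every `a ∈ l` there are at most `|b|` subsets of `a`, for some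
`b ∈ l` -/
def StrongLimit (l : M) : Prop := ∀ a, E a l → ∃ b s, E b l ∧ OntoPow E s b a

/-- `f` is a function with domain the ordinal `k` and `f(x) ⊆ x` for all `x ∈ k`
(so `x ∉ f(x)`, and `f` is a set mapping on `k`) -/
def IsSetMapping (f k : M) : Prop :=
  (∀ z, E z f → ∃ x y, E x k ∧ IsPair E z x y) ∧
  (∀ x, E x k → ∃! y, Val E f x y) ∧
  ∀ x y, E x k → Val E f x y → Sub E y x

/-- `H` is free for the set mapping `f`: `y ∉ f(x)` for all distinct `x, y ∈ H` -/
def IsFree (f H : M) : Prop :=
  ∀ x y F, E x H → E y H → x ≠ y → Val E f x F → ¬ E y F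

/-- `I` is the intersection of the sets `f(x)`, `x ∈ X`, inside `k` -/
def IsInter (f k X I : M) : Prop :=
  ∀ t, E t I ↔ E t k ∧ ∀ x F, E x X → Val E f x F → E t F

/-- The set mapping `f` on `k = l⁺` shows that `(l⁺, l⁺, l) → ℵ₁` fails: for every `X ⊆ k` of
cardinality `k` (`i` is an injection from `k` to `X`) the intersection `I = ⋂ f[X]` has
cardinality less than `l` (no `e` is an injection from `l` to `I`), and every free set is
countable. -/
def Counterexample (om l k f : M) : Prop :=
  IsSetMapping E f k ∧
  (∀ X i I, Sub E X k → IsInj E i k X → IsInter E f k X I → ∀ e, ¬ IsInj E e l I) ∧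
  ∀ H, Sub E H k → IsFree E f H → ∃ j, IsInj E j H om

end Pool.Agent.FreeSets
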