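import Pool.Agent.Lib_MP_38e082_lc.Cond
import Mathlib.SetTheory.Cardinal.Order
import Mathlib.Order.WellFounded

/-!
# Descending sequences of conditions, distributivity and free sets
-/

namespace Pool.Agent.FreeSets

open Cardinal Set

namespace Cond

variable {W : Type} [LinearOrder W] [WellFoundedLT W] {L : ℕ → Cardinal.{0}} [hS : Setup W L]
include hS

/-- chains of length at most `L n` have lower bounds -/
theorem exists_lower (n : ℕ) {J : Type} [hJn : Nonempty J] (hJ : #J ≤ L n) (c : J → Cond W L)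
    (dir : ∀ j k, LEn n (c j) (c k) ∨ LEn n (c k) (c j)) : ∃ q, ∀ j, LEn n q (c j) := by
  classical
  obtain ⟨j0⟩ := hJn
  have hJlam : #J ≤ lam L := hJ.trans (L_le_lam W n)
  -- the supremum of the lengths
  have hbd : {a : W | ∀ j, (c j).len ≤ a}.Nonempty := by
    obtain ⟨a, ha⟩ := hS.reg (range fun j => (c j).len) (mk_range_le.trans hJlam)
    exact ⟨a, fun j => (ha _ ⟨j, rfl⟩).le⟩
  let top : W := wellFounded_lt.min _ hbd
  have htop : ∀ j, (c j).len ≤ top := wellFounded_lt.min_mem _ hbd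
  have hlt_top : ∀ {x}, x < top → ∃ j, x < (c j).len := by
    intro x hx
    by_contra h
    push Not at h
    exact wellFounded_lt.not_lt_min {a : W | ∀ j, (c j).len ≤ a} h hx
  -- coherence
  have cohH : ∀ j x y k, y < (c k).len → ((∃ k', (c k').H j x y) ↔ (c k).H j x y) := by
    intro j x y k hy
    constructor
    · rintro ⟨k', h⟩
      rcases dir k k' with h1 | h1
      · exact (h1.1.H j x y ((c k').H_lt h).2).2 h
      · exact (h1.1.H j x y hy).1 h
    · exact fun h => ⟨k, h⟩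
  have cohbit : ∀ y k, y < (c k).len →
      {z | ∃ k', y < (c k').len ∧ z ∈ (c k').bit y} = (c k).bit y := by
    intro y k hy
    ext z
    constructor
    · rintro ⟨k', hy', hz⟩
      rcases dir k k' with h1 | h1
      · rw [h1.1.bit y hy']; exact hz
      · rw [← h1.1.bit y hy]; exact hz
    · exact fun h => ⟨k, hy, h⟩
  have hBm : ∀ i, #(⋃ k, (c k).B i : Set W) ≤ L n * L i := by
    intro i
    refine (mk_iUnion_le _).trans ?_
    exact mul_le_mul' hJ (ciSup_le' fun k => (c k).card_B i)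
  -- upper member of two indices
  have hmax : ∀ i, n ≤ i → ∀ k k', ∃ l, (c k).B i ⊆ (c l).B i ∧ (c k').B i ⊆ (c l).B i := by
    intro i hi k k'
    rcases dir k k' with h1 | h1
    · exact ⟨k, Subset.rfl, h1.2 i hi⟩
    · exact ⟨k', h1.2 i hi, Subset.rfl⟩
  refine ⟨{
    len := top
    H := fun j x y => ∃ k, (c k).H j x y
    H_lt := ?_
    card_H := ?_
    tri := ?_
    B := fun i => if n ≤ i then ⋃ k, (c k).B i else (c j0).B i
    B_mono := ?_
    B_lt := ?_
    B_cov := ?_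
    card_B := ?_
    edge := ?_
    Y := ⋃ k, (c k).Y
    card_Y := ?_
    Y_lt := ?_
    Y_card := ?_
    bit := fun y => {z | ∃ k, y < (c k).len ∧ z ∈ (c k).bit y} }, fun k => ⟨⟨htop k,
      fun j x y hy => cohH j x y k hy, fun y hy => cohbit y k hy, subset_iUnion (fun k => (c k).Y) k,
      ?_, n, fun i hi => ?_⟩, fun i hi => ?_⟩⟩
  · rintro j x y ⟨k, h⟩
    exact ⟨((c k).H_lt h).1, ((c k).H_lt h).2.trans_le (htop k)⟩
  · intro j y
    by_cases hy : ∃ k, y < (c k).len
    · obtain ⟨k, hk⟩ := hy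
      have : {x | ∃ k, (c k).H j x y} = {x | (c k).H j x y} := by
        ext x; exact cohH j x y k hk
      calc #{x // ∃ k, (c k).H j x y} = #({x | ∃ k, (c k).H j x y} : Set W) := rfl
        _ = #({x | (c k).H j x y} : Set W) := by rw [this]
        _ ≤ L j := (c k).card_H j y
    · have : IsEmpty {x // ∃ k, (c k).H j x y} :=
        ⟨fun ⟨x, k, h⟩ => hy ⟨k, ((c k).H_lt h).2⟩⟩
      rw [mk_eq_zero]
      exact zero_le
  · rintro j x y z ⟨k1, h1⟩ ⟨k2, h2⟩ ⟨k3, h3⟩
    have hz := ((c k3).H_lt h3).2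
    have hy := ((c k3).H_lt h3).1
    have h2' := (cohH j y z k3 hz).1 ⟨k2, h2⟩
    have h1' := (cohH j x y k3 (((c k3).H_lt h2').1.trans hz)).1 ⟨k1, h1⟩
    exact (c k3).tri j x y z h1' h2' h3
  · intro i i' hii'
    dsimp only
    split_ifs with h1 h2 h2
    · exact iUnion_mono fun k => (c k).B_mono hii'
    · omega
    · exact ((c j0).B_mono hii').trans (subset_iUnion (fun k => (c k).B i') j0)
    · exact (c j0).B_mono hii'
  · intro i x hx
    split_ifs at hx with h1
    · obtain ⟨k, hk⟩ := mem_iUnion.1 hx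
      exact ((c k).B_lt hk).trans_le (htop k)
    · exact ((c j0).B_lt hx).trans_le (htop j0)
  · intro x hx
    obtain ⟨k, hk⟩ := hlt_top hx
    obtain ⟨i, hi⟩ := (c k).B_cov hk
    refine ⟨max n i, ?_⟩
    rw [if_pos (le_max_left _ _)]
    exact mem_iUnion.2 ⟨k, (c k).B_mono (le_max_right _ _) hi⟩
  · intro i
    split_ifs with h1
    · refine (hBm i).trans ?_
      refine (mul_le_mul_left (hS.mono.monotone h1) (L i)).trans ?_
      rw [mul_eq_self (aleph0_le_L W i)]
    · exact (c j0).card_B i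
  · rintro i j x y hx hy ⟨k, h⟩
    split_ifs at hx hy with h1
    · obtain ⟨k1, h2⟩ := mem_iUnion.1 hx
      obtain ⟨k2, h3⟩ := mem_iUnion.1 hy
      obtain ⟨l, h4, h5⟩ := hmax i h1 k1 k2
      exact (c l).edge (h4 h2) (h5 h3) ((cohH j x y l ((c l).B_lt (h5 h3))).1 ⟨k, h⟩)
    · exact (c j0).edge hx hy ((cohH j x y j0 ((c j0).B_lt hy)).1 ⟨k, h⟩)
  · refine (mk_iUnion_le _).trans ?_
    refine (mul_le_mul' hJlam (ciSup_le' fun k => (c k).card_Y)).trans ?_
    rw [mul_eq_self (aleph0_le_lam W)]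
  · intro s hs x hx
    obtain ⟨k, hk⟩ := mem_iUnion.1 hs
    exact ((c k).Y_lt hk x hx).trans_le (htop k)
  · intro s hs
    obtain ⟨k, hk⟩ := mem_iUnion.1 hs
    exact (c k).Y_card hk
  · intro y hy1 hy2 s hs
    obtain ⟨k', hk'⟩ := hlt_top hy2
    rcases dir k' k with h1 | h1
    · obtain ⟨j, x, hx, hj⟩ := h1.1.prom y hy1 hk' s hs
      exact ⟨j, x, hx, k', hj⟩
    · exact absurd (hy1.trans_lt hk') (not_lt.2 h1.1.len)
  · change (c k).B i ⊆ if n ≤ i then ⋃ k, (c k).B i else (c j0).B i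
    rw [if_pos hi]
    exact subset_iUnion (fun k => (c k).B i) k
  · change (c k).B i ⊆ if n ≤ i then ⋃ k, (c k).B i else (c j0).B i
    rw [if_pos hi]
    exact subset_iUnion (fun k => (c k).B i) k

/-- recursive constructions of length at most `L n` -/
theorem chain_rec (n : ℕ) {I : Type} [LinearOrder I] [WellFoundedLT I] (hI : #I ≤ L n)
    {T : Type} [Nonempty T] (Good : (i : I) → ((j : I) → j < i → T) → T → Cond W L → Prop)
    (mono : ∀ i s t q r, r ≤ q → Good i s t q → Good i s t r) (p : Cond W L)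
    (ext : ∀ i s q, q ≤ p → ∃ r ≤ q, ∃ t, Good i s t r) :
    ∃ q ≤ p, ∃ s : I → T, ∀ i, Good i (fun j _ => s j) (s i) q := by
  classical
  let Inv : (i : I) → ((j : I) → j < i → Cond W L × T) → Cond W L × T → Prop :=
    fun i prev r => LEn n r.1 p ∧ (∀ j hj, LEn n r.1 (prev j hj).1) ∧
      Good i (fun j hj => (prev j hj).2) r.2 r.1
  let F : (i : I) → ((j : I) → j < i → Cond W L × T) → Cond W L × T := fun i prev =>
    if h : ∃ r, Inv i prev r then h.choose else (p, Classical.arbitrary T)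
  let c : I → Cond W L × T := WellFoundedLT.fix F
  have hc : ∀ i, c i = F i (fun j _ => c j) := fun i => WellFoundedLT.fix_eq F i
  have hInv : ∀ i, Inv i (fun j _ => c j) (c i) := by
    intro i
    induction i using WellFoundedLT.induction with
    | ind i ih =>
      have hex : ∃ r, Inv i (fun j _ => c j) r := by
        obtain ⟨r0, hr0p, hr0⟩ : ∃ r0 : Cond W L, LEn n r0 p ∧ ∀ j < i, LEn n r0 (c j).1 := by
          by_cases hne : (Iio i).Nonempty
          · have : Nonempty (Iio i) := hne.to_subtype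
            obtain ⟨q, hq⟩ := exists_lower (W := W) n (J := Iio i)
              ((mk_set_le _).trans hI) (fun j => (c j.1).1) (by
                rintro ⟨j, hj⟩ ⟨k, hk⟩
                rcases lt_trichotomy j k with h | h | h
                · exact Or.inr ((ih k hk).2.1 j h)
                · subst h; exact Or.inl (LEn.refl n _)
                · exact Or.inl ((ih j hj).2.1 k h))
            obtain ⟨j, hj⟩ := hne
            exact ⟨q, (hq ⟨j, hj⟩).trans (ih j hj).1, fun k hk => hq ⟨k, hk⟩⟩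
          · exact ⟨p, LEn.refl n p, fun j hj => absurd ⟨j, hj⟩ hne⟩
        obtain ⟨r, hr, t, ht⟩ := ext i (fun j _ => (c j).2) r0 hr0p.1
        obtain ⟨r', hr', h2⟩ := exists_correct hr
        exact ⟨(r', t), (h2 n).trans hr0p, fun j hj => (h2 n).trans (hr0 j hj),
          mono _ _ _ _ _ hr' ht⟩
      rw [hc i]
      change Inv i _ (if h : ∃ r, Inv i (fun j _ => c j) r then h.choose else _)
      rw [dif_pos hex]
      exact hex.choose_spec
  rcases isEmpty_or_nonempty I with hemp | hne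
  · exact ⟨p, le_rfl, fun i => hemp.elim i, fun i => hemp.elim i⟩
  · obtain ⟨q, hq⟩ := exists_lower (W := W) n hI (fun i => (c i).1) (by
      intro j k
      rcases lt_trichotomy j k with h | h | h
      · exact Or.inr ((hInv k).2.1 j h)
      · subst h; exact Or.inl (LEn.refl n _)
      · exact Or.inl ((hInv j).2.1 k h))
    obtain ⟨i0⟩ := hne
    exact ⟨q, (hq i0).1.trans (hInv i0).1.1, fun i => (c i).2,
      fun i => mono _ _ _ _ _ (hq i).1 (hInv i).2.2⟩

/-- distributivity, first form -/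
lemma distrib_n (n : ℕ) {I : Type} (hI : #I ≤ L n) (D : I → Set (Cond W L)) (p : Cond W L)
    (hD : ∀ i, ∀ q ≤ p, ∃ r ≤ q, r ∈ D i) (hop : ∀ i, ∀ q ∈ D i, ∀ r ≤ q, r ∈ D i) :
    ∃ q ≤ p, ∀ i, q ∈ D i := by
  obtain ⟨_, hw⟩ := exists_wellFoundedLT I
  obtain ⟨q, hq, s, hs⟩ := chain_rec (W := W) n hI (T := Unit) (fun i _ _ q => q ∈ D i)
    (fun i _ _ q r hr h => hop i q h r hr) p (fun i _ q hq => by
      obtain ⟨r, hr, h⟩ := hD i q hq
      exact ⟨r, hr, (), h⟩)
  exact ⟨q, hq, hs⟩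

/-- `λ`-distributivity -/
theorem distrib {I : Type} (hI : #I ≤ lam L) (D : I → Set (Cond W L)) (p : Cond W L)
    (hD : ∀ i, ∀ q ≤ p, ∃ r ≤ q, r ∈ D i) (hop : ∀ i, ∀ q ∈ D i, ∀ r ≤ q, r ∈ D i) :
    ∃ q ≤ p, ∀ i, q ∈ D i := by
  obtain ⟨f, hf⟩ := exists_decomp W hI
  obtain ⟨q, hq, h⟩ := distrib_n (W := W) 0 (I := ℕ) (by simpa using hS.inf)
    (fun n => {q | ∀ i : {i // f i = n}, q ∈ D i.1}) p
    (fun n q hq => distrib_n (W := W) n (hf n) (fun i => D i.1) q
      (fun i r hr => hD i.1 r (hr.trans hq)) (fun i => hop i.1))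
    (fun n q h r hr i => hop i.1 q (h i) r hr)
  exact ⟨q, hq, fun i => h (f i) ⟨i, rfl⟩⟩

/-- conditions can be made arbitrarily long -/
theorem exists_len (a : W) (p : Cond W L) : ∃ q ≤ p, a < q.len := by
  induction a using WellFoundedLT.induction generalizing p with
  | ind a ih =>
    obtain ⟨q, hq, h⟩ := distrib (W := W) (I := Iio a) (hS.small a)
      (fun b => {q | b.1 < q.len}) p (fun b q _ => ih b.1 b.2 q)
      (fun b q h r hr => lt_of_lt_of_le h hr.len)
    obtain ⟨r, hr, hlen, _⟩ := exists_one_point q ∅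
    refine ⟨r, hr.trans hq, ?_⟩
    rw [hlen, lt_suc_iff]
    by_contra hlt
    exact lt_irrefl _ (h ⟨q.len, not_le.1 hlt⟩)

end Cond

/-- finitely many triangle free graphs do not cover the pairs of an infinite set -/
lemma finite_of_cover {W : Type} [LinearOrder W] [WellFoundedLT W] (H : ℕ → W → W → Prop)
    (tri : ∀ j x y z, H j x y → H j y z → ¬ H j x z) (J : Finset ℕ) :
    ∀ A : Set W, (∀ x ∈ A, ∀ y ∈ A, x < y → ∃ j ∈ J, H j x y) → A.Finite := by
  classical
  induction J using Finset.strongInduction with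
  | H J ih =>
    intro A hA
    by_contra hinf
    have hinf' : A.Infinite := hinf
    obtain ⟨a0, ha0⟩ := hinf'.nonempty
    let a := wellFounded_lt.min A ⟨a0, ha0⟩
    have haA : a ∈ A := wellFounded_lt.min_mem A ⟨a0, ha0⟩
    have hamin : ∀ x ∈ A, ¬ x < a := fun x hx => wellFounded_lt.not_lt_min A hx
    have hA2 : (A \ {a}).Infinite := hinf'.sdiff (finite_singleton a)
    have hcov : A \ {a} ⊆ ⋃ j ∈ J, {y | y ∈ A ∧ a < y ∧ H j a y} := by
      rintro y ⟨hy, hya⟩
      have hlt : a < y := lt_of_le_of_ne (not_lt.1 (hamin y hy)) (fun h => hya h.symm)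
      obtain ⟨j, hj, h⟩ := hA a haA y hy hlt
      exact mem_biUnion (Finset.mem_coe.2 hj) ⟨hy, hlt, h⟩
    have hex : ∃ j ∈ J, {y | y ∈ A ∧ a < y ∧ H j a y}.Infinite := by
      by_contra hno
      push Not at hno
      exact hA2 ((J.finite_toSet.biUnion (fun j hj => hno j hj)).subset hcov)
    obtain ⟨j, hj, hjinf⟩ := hex
    apply hjinf
    refine ih (J.erase j) (Finset.erase_ssubset hj) _ ?_
    rintro x ⟨hx1, hx2, hx3⟩ y ⟨hy1, hy2, hy3⟩ hxy
    obtain ⟨k, hk, h⟩ := hA x hx1 y hy1 hxy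
    refine ⟨k, Finset.mem_erase.2 ⟨?_, hk⟩, h⟩
    rintro rfl
    exact tri _ _ _ _ hx3 h hy3

/-- free sets of a condition are countable -/
theorem Cond.countable_of_free {W : Type} [LinearOrder W] [WellFoundedLT W]
    {L : ℕ → Cardinal.{0}} (p : Cond W L) (Z : Set W) (hZ : ∀ x ∈ Z, x < p.len)
    (hfree : ∀ x ∈ Z, ∀ y ∈ Z, x < y → ∃ j, p.H j x y) : Z.Countable := by
  have hcov : Z ⊆ ⋃ i, (Z ∩ p.B i) := by
    intro x hx
    obtain ⟨i, hi⟩ := p.B_cov (hZ x hx)
    exact mem_iUnion.2 ⟨i, hx, hi⟩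
  refine (countable_iUnion fun i => ?_).mono hcov
  apply Set.Finite.countable
  refine finite_of_cover p.H p.tri (Finset.range i) _ ?_
  rintro x ⟨hx1, hx2⟩ y ⟨hy1, hy2⟩ hxy
  obtain ⟨j, hj⟩ := hfree x hx1 y hy1 hxy
  exact ⟨j, Finset.mem_range.2 (p.edge hx2 hy2 hj), hj⟩

end Pool.Agent.FreeSets
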