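import Pool.Agent.Lib_MP_38e082_lc.Transversal
import Mathlib.Data.Set.Countable

/-!
# The forcing conditions

`W` is a well-order of size `λ⁺` all of whose proper initial segments have size at most
`λ = sup L n`, where `L 0 < L 1 < ...` are infinite cardinals.
-/

namespace Pool.Agent.FreeSets

open Cardinal Set

/-- the standing assumptions on the well-order `W` and the cardinals `L n` -/
class Setup (W : Type) [LinearOrder W] [WellFoundedLT W] (L : ℕ → Cardinal.{0}) : Prop where
  mono : StrictMono L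
  inf : ℵ₀ ≤ L 0
  small : ∀ a : W, #(Iio a) ≤ ⨆ n, L n
  reg : ∀ s : Set W, #s ≤ ⨆ n, L n → ∃ a, ∀ x ∈ s, x < a

/-- the singular cardinal -/
noncomputable def lam (L : ℕ → Cardinal.{0}) : Cardinal.{0} := ⨆ n, L n

section basic
variable {W : Type} [LinearOrder W] [WellFoundedLT W] {L : ℕ → Cardinal.{0}}

section
set_option linter.unusedSectionVars false
variable (W)
variable [hS : Setup W L]
include hS

lemma L_mono : StrictMono L := hS.mono

lemma aleph0_le_L (n : ℕ) : ℵ₀ ≤ L n := hS.inf.trans (hS.mono.monotone (Nat.zero_le n))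

lemma L_le_lam (n : ℕ) : L n ≤ lam L := le_ciSup Cardinal.bddAbove_of_small n

lemma L_lt_lam (n : ℕ) : L n < lam L := (hS.mono (Nat.lt_succ_self n)).trans_le (L_le_lam W (n+1))

lemma aleph0_le_lam : ℵ₀ ≤ lam L := (aleph0_le_L W 0).trans (L_le_lam W 0)

lemma succ_L_lt_lam (n : ℕ) : Order.succ (L n) < lam L :=
  (Order.succ_le_of_lt (hS.mono (Nat.lt_succ_self n))).trans_lt (L_lt_lam W (n+1))

/-- a set of size at most `λ` is a countable union of sets of size at most `L n` -/
lemma exists_decomp {T : Type} (hT : #T ≤ lam L) : ∃ f : T → ℕ, ∀ n, #{t // f t = n} ≤ L n := by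
  have h1 : #T ≤ Cardinal.sum L := hT.trans (Cardinal.iSup_le_sum L)
  have h2 : Cardinal.sum L = #(Σ n, (L n).out) := by simp
  rw [h2] at h1
  obtain ⟨e⟩ := h1
  refine ⟨fun t => (e t).1, fun n => ?_⟩
  have h3 : L n = #((L n).out) := by simp
  rw [h3]
  refine mk_le_of_injective (f := fun t : {t // (e t).1 = n} =>
    Equiv.sigmaSubtype n ⟨e t.1, t.2⟩) ?_
  intro a b h
  have h4 := (Equiv.sigmaSubtype n).injective h
  exact Subtype.ext (e.injective (congrArg Subtype.val h4))

end

section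
variable (L)
variable [hS : Setup W L]
include hS

lemma exists_gt' (a : W) : ∃ b, a < b := by
  obtain ⟨b, hb⟩ := hS.reg {a} (by
    rw [mk_singleton]
    exact one_le_aleph0.trans (aleph0_le_lam W))
  exact ⟨b, hb a rfl⟩

lemma nonempty_W : Nonempty W := by
  obtain ⟨b, _⟩ := hS.reg ∅ (by simp)
  exact ⟨b⟩

/-- the next element -/
noncomputable def suc (a : W) : W := wellFounded_lt.min {x | a < x} (exists_gt' L a)

lemma lt_suc_iff {a x : W} : x < suc L a ↔ x ≤ a := by
  have h1 : a < suc L a := wellFounded_lt.min_mem {x | a < x} (exists_gt' L a)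
  constructor
  · intro h
    by_contra h2
    exact wellFounded_lt.not_lt_min {x | a < x} (not_le.1 h2) h
  · intro h; exact h.trans_lt h1

lemma lt_suc (a : W) : a < suc L a := (lt_suc_iff L).2 le_rfl

/-- the least element -/
noncomputable def bt : W := wellFounded_lt.min (univ : Set W) (by
  obtain ⟨a⟩ := nonempty_W (W := W) L
  exact ⟨a, trivial⟩)

lemma not_lt_bt (x : W) : ¬ x < bt (W := W) L := wellFounded_lt.not_lt_min _ (mem_univ x)

lemma bt_le (x : W) : bt (W := W) L ≤ x := not_lt.1 (not_lt_bt L x)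

end

end basic

/-- forcing conditions -/
structure Cond (W : Type) [LinearOrder W] (L : ℕ → Cardinal.{0}) : Type where
  /-- the length -/
  len : W
  /-- the graphs -/
  H : ℕ → W → W → Prop
  H_lt : ∀ {j x y}, H j x y → x < y ∧ y < len
  card_H : ∀ j y, #{x // H j x y} ≤ L j
  tri : ∀ j x y z, H j x y → H j y z → ¬ H j x z
  /-- the filtration of the length -/
  B : ℕ → Set W
  B_mono : Monotone B
  B_lt : ∀ {i x}, x ∈ B i → x < len
  B_cov : ∀ {x}, x < len → ∃ i, x ∈ B i
  card_B : ∀ i, #(B i) ≤ L i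
  edge : ∀ {i j x y}, x ∈ B i → y ∈ B i → H j x y → j < i
  /-- the promises -/
  Y : Set (Set W)
  card_Y : #Y ≤ lam L
  Y_lt : ∀ {s}, s ∈ Y → ∀ x ∈ s, x < len
  Y_card : ∀ {s}, s ∈ Y → lam L ≤ #s
  /-- the coding part -/
  bit : W → Set W

namespace Cond

variable {W : Type} [LinearOrder W] {L : ℕ → Cardinal.{0}}

/-- the order of the conditions -/
structure LE' (q p : Cond W L) : Prop where
  len : p.len ≤ q.len
  H : ∀ j x y, y < p.len → (q.H j x y ↔ p.H j x y)
  bit : ∀ y, y < p.len → q.bit y = p.bit y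
  Y : p.Y ⊆ q.Y
  prom : ∀ y, p.len ≤ y → y < q.len → ∀ s ∈ p.Y, ∃ j, ∃ x ∈ s, q.H j x y
  B : ∃ m, ∀ i, m ≤ i → p.B i ⊆ q.B i

instance : Preorder (Cond W L) where
  le q p := LE' q p
  le_refl p := ⟨le_rfl, fun _ _ _ _ => Iff.rfl, fun _ _ => rfl, Subset.rfl,
    fun y h1 h2 => absurd h2 (not_lt.2 h1), 0, fun _ _ => Subset.rfl⟩
  le_trans r q p h1 h2 := by
    refine ⟨h2.len.trans h1.len, fun j x y h => ?_, fun y h => ?_, h2.Y.trans h1.Y, ?_, ?_⟩
    · rw [h1.H j x y (h.trans_le h2.len), h2.H j x y h]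
    · rw [h1.bit y (h.trans_le h2.len), h2.bit y h]
    · intro y hy1 hy2 s hs
      rcases lt_or_ge y q.len with h | h
      · obtain ⟨j, x, hx, hj⟩ := h2.prom y hy1 h s hs
        exact ⟨j, x, hx, (h1.H j x y h).2 hj⟩
      · exact h1.prom y h hy2 s (h2.Y hs)
    · obtain ⟨m1, hm1⟩ := h1.B
      obtain ⟨m2, hm2⟩ := h2.B
      exact ⟨max m1 m2, fun i hi => (hm2 i (le_of_max_le_right hi)).trans
        (hm1 i (le_of_max_le_left hi))⟩

lemma le_def {q p : Cond W L} : q ≤ p ↔ LE' q p := Iff.rfl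

/-- `q ≤ p` and the filtrations increase from `n` on -/
def LEn (n : ℕ) (q p : Cond W L) : Prop := q ≤ p ∧ ∀ i, n ≤ i → p.B i ⊆ q.B i

lemma LEn.refl (n : ℕ) (p : Cond W L) : LEn n p p := ⟨le_rfl, fun _ _ => Subset.rfl⟩

lemma LEn.trans {n : ℕ} {p q r : Cond W L} (h1 : LEn n r q) (h2 : LEn n q p) : LEn n r p :=
  ⟨h1.1.trans h2.1, fun i hi => (h2.2 i hi).trans (h1.2 i hi)⟩

/-- an extension can be corrected so that the filtration increases everywhere -/
lemma exists_correct {q p : Cond W L} (h : q ≤ p) :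
    ∃ q', q' ≤ q ∧ ∀ n, LEn n q' p := by
  obtain ⟨m, hm⟩ := h.B
  refine ⟨{ q with
    B := fun i => if i < m then p.B i else q.B i
    B_mono := ?_
    B_lt := ?_
    B_cov := ?_
    card_B := ?_
    edge := ?_ }, ?_, fun n => ⟨?_, ?_⟩⟩
  · intro i j hij
    dsimp only
    split_ifs with h1 h2 h2
    · exact p.B_mono hij
    · exact (p.B_mono hij).trans (hm j (not_lt.1 h2))
    · omega
    · exact q.B_mono hij
  · intro i x hx
    split_ifs at hx with h1
    · exact (p.B_lt hx).trans_le h.len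
    · exact q.B_lt hx
  · intro x hx
    obtain ⟨i, hi⟩ := q.B_cov hx
    refine ⟨max i m, ?_⟩
    rw [if_neg (by omega)]
    exact q.B_mono (le_max_left _ _) hi
  · intro i
    split_ifs
    · exact p.card_B i
    · exact q.card_B i
  · intro i j x y hx hy hH
    split_ifs at hx hy with h1
    · exact p.edge hx hy ((h.H j x y (p.B_lt hy)).1 hH)
    · exact q.edge hx hy hH
  · refine ⟨le_rfl, fun _ _ _ _ => Iff.rfl, fun _ _ => rfl, Subset.rfl,
      fun y h1 h2 => absurd h2 (not_lt.2 h1), m, fun i hi => ?_⟩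
    change q.B i ⊆ (if i < m then p.B i else q.B i)
    rw [if_neg (not_lt.2 hi)]
  · refine ⟨h.len, h.H, h.bit, h.Y, h.prom, m, fun i hi => ?_⟩
    change p.B i ⊆ (if i < m then p.B i else q.B i)
    rw [if_neg (not_lt.2 hi)]
    exact hm i hi
  · intro i _
    change p.B i ⊆ (if i < m then p.B i else q.B i)
    split_ifs with h1
    · exact Subset.rfl
    · exact hm i (not_lt.1 h1)

section
variable [WellFoundedLT W] [hS : Setup W L]
include hS

/-- the empty condition -/
noncomputable instance : OrderTop (Cond W L) where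
  top :=
    { len := bt L
      H := fun _ _ _ => False
      H_lt := fun h => h.elim
      card_H := fun j y => by simp
      tri := fun _ _ _ _ h => h.elim
      B := fun _ => ∅
      B_mono := fun _ _ _ => Subset.rfl
      B_lt := fun h => h.elim
      B_cov := fun h => absurd h (not_lt_bt L _)
      card_B := fun i => by simp
      edge := fun h => h.elim
      Y := ∅
      card_Y := by simp
      Y_lt := fun h => h.elim
      Y_card := fun h => h.elim
      bit := fun _ => ∅ }
  le_top p := ⟨bt_le L _, fun j x y h => absurd h (not_lt_bt L _),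
    fun y h => absurd h (not_lt_bt L _), empty_subset _, fun _ _ _ _ h => h.elim, 0,
    fun _ _ => empty_subset _⟩

/-- extension by one point -/
lemma exists_one_point (p : Cond W L) (S : Set W) :
    ∃ q, q ≤ p ∧ q.len = suc L p.len ∧ q.bit p.len = S := by
  classical
  obtain ⟨f, hf⟩ := exists_decomp W p.card_Y
  have key : ∀ j, ∃ h : {t : p.Y // f t = j} → W, (∀ t, h t ∈ (t.1.1 \ p.B j : Set W)) ∧
      ∀ t t', ¬ p.H j (h t) (h t') := by
    intro j
    refine exists_transversal (L j) (aleph0_le_L W j) (hf j) (p.H j)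
      (fun x h => lt_irrefl _ (p.H_lt h).1) (p.card_H j) _ ?_
    intro t
    by_contra hcon
    have h1 : #(t.1.1 : Set W) ≤ #(t.1.1 \ p.B j : Set W) + #(p.B j) := by
      refine le_trans (mk_le_mk_of_subset ?_) (mk_union_le _ _)
      intro x hx
      by_cases h : x ∈ p.B j
      · exact Or.inr h
      · exact Or.inl ⟨hx, h⟩
    have h2 : #(t.1.1 : Set W) ≤ Order.succ (L j) := by
      refine h1.trans ((add_le_add (not_lt.1 hcon)
        ((p.card_B j).trans (Order.le_succ _))).trans ?_)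
      rw [add_eq_self ((aleph0_le_L W j).trans (Order.le_succ _))]
    exact absurd (succ_L_lt_lam W j) (not_lt.2 ((p.Y_card t.1.2).trans h2))
  choose h hh1 hh2 using key
  let P : ℕ → Set W := fun j => range (h j)
  have hPlt : ∀ {j x}, x ∈ P j → x < p.len := by
    rintro j x ⟨t, rfl⟩
    exact p.Y_lt t.1.2 _ (hh1 j t).1
  have hPB : ∀ {j x}, x ∈ P j → x ∉ p.B j := by
    rintro j x ⟨t, rfl⟩
    exact (hh1 j t).2
  have hPH : ∀ {j x y}, x ∈ P j → y ∈ P j → ¬ p.H j x y := by
    rintro j x y ⟨t, rfl⟩ ⟨t', rfl⟩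
    exact hh2 j t t'
  have hlt := lt_suc L p.len
  refine ⟨{
    len := suc L p.len
    H := fun j x y => p.H j x y ∨ (y = p.len ∧ x ∈ P j)
    H_lt := ?_
    card_H := ?_
    tri := ?_
    B := fun i => insert p.len (p.B i)
    B_mono := fun i j hij => insert_subset_insert (p.B_mono hij)
    B_lt := ?_
    B_cov := ?_
    card_B := ?_
    edge := ?_
    Y := p.Y
    card_Y := p.card_Y
    Y_lt := fun hs x hx => (p.Y_lt hs x hx).trans hlt
    Y_card := p.Y_card
    bit := Function.update p.bit p.len S }, ?_, rfl, ?_⟩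
  · rintro j x y (h1 | ⟨rfl, h1⟩)
    · exact ⟨(p.H_lt h1).1, (p.H_lt h1).2.trans hlt⟩
    · exact ⟨hPlt h1, hlt⟩
  · intro j y
    by_cases hy : y = p.len
    · have h1 : #{x // p.H j x y ∨ (y = p.len ∧ x ∈ P j)} ≤ #(P j) := by
        apply mk_le_mk_of_subset
        rintro x (h2 | h2)
        · exact absurd (p.H_lt h2).2 (by rw [hy]; exact lt_irrefl _)
        · exact h2.2
      exact h1.trans (mk_range_le.trans (hf j))
    · have h1 : #{x // p.H j x y ∨ (y = p.len ∧ x ∈ P j)} ≤ #{x // p.H j x y} := by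
        apply mk_le_mk_of_subset
        rintro x (h2 | h2)
        · exact h2
        · exact absurd h2.1 hy
      exact h1.trans (p.card_H j y)
  · rintro j x y z (h1 | ⟨h1, h1'⟩) (h2 | ⟨h2, h2'⟩) (h3 | ⟨h3, h3'⟩)
    · exact p.tri j x y z h1 h2 h3
    · exact absurd (p.H_lt h2).2 (by rw [h3]; exact lt_irrefl _)
    · exact absurd (p.H_lt h3).2 (by rw [h2]; exact lt_irrefl _)
    · exact hPH h3' h2' h1
    · exact absurd ((p.H_lt h2).1.trans (p.H_lt h2).2) (by rw [h1]; exact lt_irrefl _)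
    · exact absurd (p.H_lt h2).2 (by rw [h3]; exact lt_irrefl _)
    · exact absurd (hPlt h2') (by rw [h1]; exact lt_irrefl _)
    · exact absurd (hPlt h2') (by rw [h1]; exact lt_irrefl _)
  · rintro i x (rfl | hx)
    · exact hlt
    · exact (p.B_lt hx).trans hlt
  · intro x hx
    rcases ((lt_suc_iff L).1 hx).lt_or_eq with h1 | h1
    · obtain ⟨i, hi⟩ := p.B_cov h1
      exact ⟨i, Or.inr hi⟩
    · exact ⟨0, Or.inl h1⟩
  · intro i
    refine mk_insert_le.trans ?_
    exact add_le_of_le (aleph0_le_L W i) (p.card_B i) (one_le_aleph0.trans (aleph0_le_L W i))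
  · rintro i j x y hx hy (h1 | ⟨rfl, h1⟩)
    · have hx' : x ∈ p.B i := hx.resolve_left fun h2 =>
        absurd ((p.H_lt h1).1.trans (p.H_lt h1).2) (by rw [h2]; exact lt_irrefl _)
      have hy' : y ∈ p.B i := hy.resolve_left fun h2 =>
        absurd (p.H_lt h1).2 (by rw [h2]; exact lt_irrefl _)
      exact p.edge hx' hy' h1
    · have hx' : x ∈ p.B i := hx.resolve_left fun h2 =>
        absurd (hPlt h1) (by rw [h2]; exact lt_irrefl _)
      by_contra hji
      exact hPB h1 (p.B_mono (not_lt.1 hji) hx')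
  · refine ⟨hlt.le, fun j x y hy => ?_, fun y hy => ?_, Subset.rfl, ?_, 0,
      fun i _ => subset_insert _ _⟩
    · constructor
      · rintro (h1 | h1)
        · exact h1
        · exact absurd hy (by rw [h1.1]; exact lt_irrefl _)
      · exact Or.inl
    · exact Function.update_of_ne hy.ne _ _
    · intro y hy1 hy2 s hs
      have hy : y = p.len := le_antisymm ((lt_suc_iff L).1 hy2) hy1
      exact ⟨f ⟨s, hs⟩, h _ ⟨⟨s, hs⟩, rfl⟩, (hh1 _ ⟨⟨s, hs⟩, rfl⟩).1, Or.inr ⟨hy, ⟨_, rfl⟩⟩⟩
  · exact Function.update_self _ _ _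

/-- a new promise can be added -/
lemma exists_promise (p : Cond W L) (s : Set W) (h1 : ∀ x ∈ s, x < p.len) (h2 : lam L ≤ #s) :
    ∃ q, q ≤ p ∧ q.len = p.len ∧ s ∈ q.Y := by
  refine ⟨{ p with
    Y := insert s p.Y
    card_Y := ?_
    Y_lt := ?_
    Y_card := ?_ }, ?_, rfl, mem_insert _ _⟩
  · refine mk_insert_le.trans ?_
    exact add_le_of_le (aleph0_le_lam W) p.card_Y (one_le_aleph0.trans (aleph0_le_lam W))
  · rintro t (rfl | ht)
    · exact h1
    · exact p.Y_lt ht
  · rintro t (rfl | ht)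
    · exact h2
    · exact p.Y_card ht
  · exact ⟨le_rfl, fun _ _ _ _ => Iff.rfl, fun _ _ => rfl, subset_insert _ _,
      fun y h1 h2 => absurd h2 (not_lt.2 h1), 0, fun _ _ => Subset.rfl⟩

end

end Cond

end Pool.Agent.FreeSets
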