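import Pool.Agent.Lib_MP_38e082_lc.Full

/-!
# Deciding functions and subsets
-/

set_option linter.unusedSectionVars false

namespace Pool.Agent.FreeSets

open Pool.Agent.Forcing Pool.Agent.Forcing.Name Pool.Agent.Inner Set Cardinal

variable {W : Type} [LinearOrder W] [WellFoundedLT W] {L : ℕ → Cardinal.{0}} [hS : Setup W L]
include hS

/-- the property: `v 2` maps `v 0` to `v 1` -/
abbrev RVal : Fam.{1} := fun _ E v => Val E (v 2) (v 0) (v 1)
/-- the property: `v 2` maps `v 1` to `v 0` -/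
abbrev RVal' : Fam.{1} := fun _ E v => Val E (v 2) (v 1) (v 0)
/-- the property: `v 0` is an injection from `v 1` to `v 2` -/
abbrev RInj : Fam.{1} := fun _ E v => IsInj E (v 0) (v 1) (v 2)
/-- the property: `v 0` is a subset of `v 1` -/
abbrev RSub : Fam.{1} := fun _ E v => Sub E (v 0) (v 1)

omit hS in
omit [LinearOrder W] [WellFoundedLT W] in
lemma fo_val : FO RVal := FO.val _ _ _
omit hS in
omit [LinearOrder W] [WellFoundedLT W] in
lemma fo_val' : FO RVal' := FO.val _ _ _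
omit hS in
omit [LinearOrder W] [WellFoundedLT W] in
lemma fo_inj : FO RInj := FOx.isInj _ _ _
omit hS in
omit [LinearOrder W] [WellFoundedLT W] in
lemma fo_sub : FO RSub := FO.sub _ _

variable (W L) in
/-- the canonical name of `κ` -/
noncomputable abbrev kapN : Name (Cond W L) := checkSet (univ : Set W)

lemma exists_decide {R : Fam.{1}} (l : List (Name (Cond W L))) (A : Set W)
    (hA : #A ≤ lam L) (p : Cond W L) : ∃ q ≤ p, ∀ x ∈ A,
      (∃ b : W, Frc R (ev omegaName (check x :: check b :: l)) q) ∨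
      ∀ b : W, ∀ r ≤ q, ¬ Frc R (ev omegaName (check x :: check b :: l)) r := by
  obtain ⟨q, hq, h⟩ := Cond.distrib (W := W) (I := A) hA (fun x => {q |
      (∃ b : W, Frc R (ev omegaName (check x.1 :: check b :: l)) q) ∨
      ∀ b : W, ∀ r ≤ q, ¬ Frc R (ev omegaName (check x.1 :: check b :: l)) r}) p
    (fun x q _ => by
      by_cases h : ∃ b : W, ∃ r ≤ q, Frc R (ev omegaName (check x.1 :: check b :: l)) r
      · obtain ⟨b, r, hr, h⟩ := h
        exact ⟨r, hr, Or.inl ⟨b, h⟩⟩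
      · push Not at h
        exact ⟨q, le_rfl, Or.inr h⟩)
    (fun x q h r hr => by
      rcases h with ⟨b, h⟩ | h
      · exact Or.inl ⟨b, h.mono hr⟩
      · exact Or.inr fun b s hs => h b s (hs.trans hr))
  exact ⟨q, hq, fun x hx => h ⟨x, hx⟩⟩

/-- injectivity of forced injections on canonical names -/
lemma inj_unique {i A B : Name (Cond W L)} {p : Cond W L} {b b' x : W}
    (h : Frc RInj (ev omegaName [i, A, B]) p)
    (h1 : Frc RVal (ev omegaName [check b, check x, i]) p)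
    (h2 : Frc RVal (ev omegaName [check b', check x, i]) p) : b = b' := by
  obtain ⟨𝔊, hF, h0, hSN⟩ := exists_full
    ({i, A, B, check b, check b', check x} : Set (Name (Cond W L))) (by simp) p
  subst h0
  have hi : i ∈ 𝔊.N := hSN (by simp)
  have hA : A ∈ 𝔊.N := hSN (by simp)
  have hB : B ∈ 𝔊.N := hSN (by simp)
  have hb : check b ∈ 𝔊.N := hSN (by simp)
  have hb' : check b' ∈ 𝔊.N := hSN (by simp)
  have hx : check x ∈ 𝔊.N := hSN (by simp)
  have t0 : IsInj 𝔊.E (𝔊.cls ⟨i, hi⟩) (𝔊.cls ⟨A, hA⟩) (𝔊.cls ⟨B, hB⟩) :=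
    Frc.true_list fo_inj 𝔊 [⟨i, hi⟩, ⟨A, hA⟩, ⟨B, hB⟩] ⟨omegaName, hF.rich.omega_mem⟩ h
  have t1 : Val 𝔊.E (𝔊.cls ⟨i, hi⟩) (𝔊.cls ⟨check b, hb⟩) (𝔊.cls ⟨check x, hx⟩) :=
    Frc.true_list fo_val 𝔊 [⟨check b, hb⟩, ⟨check x, hx⟩, ⟨i, hi⟩]
      ⟨omegaName, hF.rich.omega_mem⟩ h1
  have t2 : Val 𝔊.E (𝔊.cls ⟨i, hi⟩) (𝔊.cls ⟨check b', hb'⟩) (𝔊.cls ⟨check x, hx⟩) :=
    Frc.true_list fo_val 𝔊 [⟨check b', hb'⟩, ⟨check x, hx⟩, ⟨i, hi⟩]
      ⟨omegaName, hF.rich.omega_mem⟩ h2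
  have t3 := t0.2 _ _ _ t1 t2
  exact (rep_self hb).check_inj (t3 ▸ rep_self hb')

/-- forced injections are functions on canonical names -/
lemma fun_unique {i A B : Name (Cond W L)} {p : Cond W L} {b b' x : W}
    (h : Frc RInj (ev omegaName [i, A, B]) p)
    (h1 : Frc RVal (ev omegaName [check x, check b, i]) p)
    (h2 : Frc RVal (ev omegaName [check x, check b', i]) p) : b = b' := by
  obtain ⟨𝔊, hF, h0, hSN⟩ := exists_full
    ({i, A, B, check b, check b', check x} : Set (Name (Cond W L))) (by simp) p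
  subst h0
  have hi : i ∈ 𝔊.N := hSN (by simp)
  have hA : A ∈ 𝔊.N := hSN (by simp)
  have hB : B ∈ 𝔊.N := hSN (by simp)
  have hb : check b ∈ 𝔊.N := hSN (by simp)
  have hb' : check b' ∈ 𝔊.N := hSN (by simp)
  have hx : check x ∈ 𝔊.N := hSN (by simp)
  have t0 : IsInj 𝔊.E (𝔊.cls ⟨i, hi⟩) (𝔊.cls ⟨A, hA⟩) (𝔊.cls ⟨B, hB⟩) :=
    Frc.true_list fo_inj 𝔊 [⟨i, hi⟩, ⟨A, hA⟩, ⟨B, hB⟩] ⟨omegaName, hF.rich.omega_mem⟩ h
  have t1 : Val 𝔊.E (𝔊.cls ⟨i, hi⟩) (𝔊.cls ⟨check x, hx⟩) (𝔊.cls ⟨check b, hb⟩) :=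
    Frc.true_list fo_val 𝔊 [⟨check x, hx⟩, ⟨check b, hb⟩, ⟨i, hi⟩]
      ⟨omegaName, hF.rich.omega_mem⟩ h1
  have t2 : Val 𝔊.E (𝔊.cls ⟨i, hi⟩) (𝔊.cls ⟨check x, hx⟩) (𝔊.cls ⟨check b', hb'⟩) :=
    Frc.true_list fo_val 𝔊 [⟨check x, hx⟩, ⟨check b', hb'⟩, ⟨i, hi⟩]
      ⟨omegaName, hF.rich.omega_mem⟩ h2
  have hz := hF.rich.zfc
  have hxA : 𝔊.E (𝔊.cls ⟨check x, hx⟩) (𝔊.cls ⟨A, hA⟩) := by
    obtain ⟨z, hz1, hz2⟩ := t1
    obtain ⟨x', y', hx', _, hp⟩ := t0.1.1 z hz2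
    rw [isPair_iff hz] at hz1 hp
    rw [hz1, pair_inj hz] at hp
    rw [hp.1]; exact hx'
  obtain ⟨y, _, hy⟩ := t0.1.2 _ hxA
  have e1 := hy _ t1
  have e2 := hy _ t2
  rw [e1, ← e2] at t1
  exact (rep_self hb).check_inj ((e1.trans e2.symm) ▸ rep_self hb')

/-- there are no new injections into smaller ordinals -/
theorem no_inj (S : Set W) (a : W) (hSa : #(Iio a) < #S) (i : Name (Cond W L)) (p : Cond W L) :
    ¬ Frc RInj (ev omegaName [i, checkSet S, check a]) p := by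
  intro h
  obtain ⟨q, hq, hdec⟩ := exists_decide (R := RVal') [i] (Iio a) (hS.small a) p
  have key : ∀ b ∈ S, ∃ x < a, Frc RVal (ev omegaName [check b, check x, i]) q := by
    intro b hb
    obtain ⟨𝔊, hF, h0, hSN⟩ := exists_full
      ({i, checkSet S, check a, check b} : Set (Name (Cond W L))) (by simp) q
    subst h0
    have hi : i ∈ 𝔊.N := hSN (by simp)
    have hA : checkSet S ∈ 𝔊.N := hSN (by simp)
    have hB : check a ∈ 𝔊.N := hSN (by simp)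
    have hbN : check b ∈ 𝔊.N := hSN (by simp)
    have t0 : IsInj 𝔊.E (𝔊.cls ⟨i, hi⟩) (𝔊.cls ⟨checkSet S, hA⟩) (𝔊.cls ⟨check a, hB⟩) :=
      Frc.true_list fo_inj 𝔊 [⟨i, hi⟩, ⟨checkSet S, hA⟩, ⟨check a, hB⟩]
        ⟨omegaName, hF.rich.omega_mem⟩ (h.mono hq)
    have hbS : 𝔊.E (𝔊.cls ⟨check b, hbN⟩) (𝔊.cls ⟨checkSet S, hA⟩) :=
      (E_checkSet hF.rich hA).2 ⟨b, hb, rep_self hbN⟩
    obtain ⟨y, hy, _⟩ := t0.1.2 _ hbS
    have hz := hF.rich.zfc
    have hya : 𝔊.E y (𝔊.cls ⟨check a, hB⟩) := by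
      obtain ⟨z, hz1, hz2⟩ := hy
      obtain ⟨x', y', _, hy', hp⟩ := t0.1.1 z hz2
      rw [isPair_iff hz] at hz1 hp
      rw [hz1, pair_inj hz] at hp
      rw [hp.2]; exact hy'
    obtain ⟨x, hx, hxr⟩ := (E_rep_check hF.decC (rep_self hB)).1 hya
    refine ⟨x, hx, ?_⟩
    obtain ⟨y', rfl⟩ := 𝔊.exists_rep y
    obtain ⟨n, hn⟩ := rep_cls_iff.1 hxr
    obtain ⟨m, hm⟩ := (truth_list fo_val 𝔊 [⟨check b, hbN⟩, y', ⟨i, hi⟩]
      ⟨omegaName, hF.rich.omega_mem⟩).1 hy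
    have hm' : Frc RVal (ev omegaName [check b, check x, i]) (𝔊.G (max n m)) := by
      refine frc_congr_list ?_ (hm.mono (𝔊.anti (le_max_right n m)))
      exact List.Forall₂.cons (feq_refl _ _) (List.Forall₂.cons
        (feq_mono hn (𝔊.anti (le_max_left _ _))) (List.Forall₂.cons (feq_refl _ _) .nil))
    have hm2 : Frc RVal' (ev omegaName [check x, check b, i]) (𝔊.G (max n m)) := by
      obtain ⟨φ, h1, h2⟩ := hm'
      refine frc_full fo_val' _ _ {check b, check x, i} (by simp) ?_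
      intro 𝔊' hF' h0' hSN' hl
      have hb' : check b ∈ 𝔊'.N := hSN' (by simp)
      have hx' : check x ∈ 𝔊'.N := hSN' (by simp)
      have hi' : i ∈ 𝔊'.N := hSN' (by simp)
      exact Frc.true_list fo_val 𝔊' [⟨check b, hb'⟩, ⟨check x, hx'⟩, ⟨i, hi'⟩]
        ⟨omegaName, hF'.rich.omega_mem⟩ (Frc.mono ⟨φ, h1, h2⟩ h0')
    rcases hdec x hx with ⟨b', hb'⟩ | hno
    · have hb2 : Frc RVal (ev omegaName [check b', check x, i]) (𝔊.G 0) := by
        refine frc_full fo_val _ _ {check b', check x, i} (by simp) ?_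
        intro 𝔊' hF' h0' hSN' hl
        have hb'' : check b' ∈ 𝔊'.N := hSN' (by simp)
        have hx' : check x ∈ 𝔊'.N := hSN' (by simp)
        have hi' : i ∈ 𝔊'.N := hSN' (by simp)
        exact Frc.true_list fo_val' 𝔊' [⟨check x, hx'⟩, ⟨check b', hb''⟩, ⟨i, hi'⟩]
          ⟨omegaName, hF'.rich.omega_mem⟩ (Frc.mono hb' h0')
      have hbb : b = b' := inj_unique
        ((h.mono hq).mono (𝔊.anti (Nat.zero_le (max n m)))) hm'
        (hb2.mono (𝔊.anti (Nat.zero_le (max n m))))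
      rw [hbb]; exact hb2
    · exact absurd hm2 (hno b _ (𝔊.anti (Nat.zero_le _)))
  choose x hxa hx using fun b : S => key b.1 b.2
  have hinj : Function.Injective (fun b : S => (⟨x b, hxa b⟩ : Iio a)) := by
    intro b b' hbb
    have e : x b = x b' := congrArg Subtype.val hbb
    have h1 := hx b
    rw [e] at h1
    exact Subtype.ext (inj_unique (h.mono hq) h1 (hx b'))
  exact absurd (mk_le_of_injective hinj) (not_le.2 hSa)

/-- bounded sets are decided -/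
theorem exists_decide_set (z : Name (Cond W L)) (A : Set W) (hA : #A ≤ lam L) (p : Cond W L)
    (h1 : ∀ q ≤ p, ∀ b : W, fmem (check b) z q → b ∈ A)
    (h2 : Frc RSub (ev omegaName [z, kapN W L]) p) :
    ∃ q ≤ p, ∃ S ⊆ A, feq z (checkSet S) q := by
  obtain ⟨q, hq, h⟩ := Cond.distrib (W := W) (I := A) hA (fun x => {q : Cond W L |
      fmem (check x.1) z q ∨ ∀ r ≤ q, ¬ fmem (check x.1) z r}) p
    (fun x q _ => by
      by_cases h : ∃ r ≤ q, fmem (check x.1) z r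
      · obtain ⟨r, hr, h⟩ := h
        exact ⟨r, hr, Or.inl h⟩
      · push Not at h
        exact ⟨q, le_rfl, Or.inr h⟩)
    (fun x q h r hr => by
      rcases h with h | h
      · exact Or.inl (fmem_mono h hr)
      · exact Or.inr fun s hs => h s (hs.trans hr))
  refine ⟨q, hq, {x | x ∈ A ∧ fmem (check x) z q}, fun x hx => hx.1, ?_⟩
  have hfo : FO.{1} (fun _ _ v => v 0 = v 1) := FO.eq 0 1
  have key : Frc (fun _ _ v => v 0 = v 1)
      (ev omegaName [z, checkSet {x | x ∈ A ∧ fmem (check x) z q}]) q := by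
    refine frc_full hfo _ _ {kapN W L} (by simp) ?_
    intro 𝔊 hF h0 hSN hl
    have hzN : z ∈ 𝔊.N := hl _ (by simp)
    have hSN' : checkSet {x | x ∈ A ∧ fmem (check x) z q} ∈ 𝔊.N := hl _ (by simp)
    have hkN : kapN W L ∈ 𝔊.N := hSN (by simp)
    change 𝔊.cls ⟨z, hzN⟩ = 𝔊.cls ⟨_, hSN'⟩
    have t0 : Sub 𝔊.E (𝔊.cls ⟨z, hzN⟩) (𝔊.cls ⟨kapN W L, hkN⟩) :=
      Frc.true_list fo_sub 𝔊 [⟨z, hzN⟩, ⟨kapN W L, hkN⟩] ⟨omegaName, hF.rich.omega_mem⟩ (n := 0)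
        ((h2.mono hq).mono h0)
    apply ext hF.rich.zfc
    intro t
    constructor
    · intro ht
      obtain ⟨x, _, hx⟩ := (E_checkSet hF.rich hkN).1 (t0 t ht)
      obtain ⟨t', rfl⟩ := 𝔊.exists_rep t
      obtain ⟨n, hn⟩ := rep_cls_iff.1 hx
      obtain ⟨m, hm⟩ := ht
      have h3 : fmem (check x) z (𝔊.G (max n m)) :=
        fmem_congr_left (feq_mono hn (𝔊.anti (le_max_left _ _)))
          (fmem_mono hm (𝔊.anti (le_max_right _ _)))
      have hle : 𝔊.G (max n m) ≤ q := (𝔊.anti (Nat.zero_le _)).trans h0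
      have hxA : x ∈ A := h1 _ (hle.trans hq) x h3
      rcases h ⟨x, hxA⟩ with h4 | h4
      · exact (E_checkSet hF.rich hSN').2 ⟨x, ⟨hxA, h4⟩, hx⟩
      · exact absurd h3 (h4 _ hle)
    · intro ht
      obtain ⟨x, ⟨hxA, hx⟩, hxr⟩ := (E_checkSet hF.rich hSN').1 ht
      obtain ⟨t', rfl⟩ := 𝔊.exists_rep t
      obtain ⟨n, hn⟩ := rep_cls_iff.1 hxr
      refine ⟨n, fmem_congr_left (feq_symm hn) (fmem_mono hx ((𝔊.anti (Nat.zero_le _)).trans h0))⟩
  exact key.force (φ := .eq 0 1) (fun _ _ _ => Iff.rfl)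

end Pool.Agent.FreeSets
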