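import Pool.Agent.Lib_MP_38e082_lc.Hit

/-!
# Free sets of the generic set mapping are countable
-/

set_option linter.unusedSectionVars false

namespace Pool.Agent.FreeSets

open Pool.Agent.Forcing Pool.Agent.Forcing.Name Pool.Agent.Inner Set Cardinal

/-- the property: `v 0` is a free subset of `v 1`, for the set mapping `v 2` -/
abbrev RFree : Fam.{1} := fun _ E v => Sub E (v 0) (v 1) ∧ IsFree E (v 2) (v 0)

lemma fo_free : FO RFree := FO.and (FO.sub _ _) (FOx.isFree _ _)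

/-- the property: there is an injection from `v 0` to `v 1` -/
abbrev REInj : Fam.{1} := fun _ E v => ∃ j, IsInj E j (v 0) (v 1)

lemma fo_einj : FO REInj := FO.ex (FOx.isInj 0 1 2)

variable {W : Type} [LinearOrder W] [WellFoundedLT W] {L : ℕ → Cardinal.{0}} {ell : W}
  [hS2 : Setup2 W L ell]
include hS2

/-- free sets are free for the condition -/
lemma free_cond {H : Name (Cond W L)} {p : Cond W L}
    (h : Frc RFree (ev omegaName [H, kapN W L, fN W L]) p) {x y : W} (hx : fmem (check x) H p)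
    (hy : fmem (check y) H p) (hlt : x < y) (hyp : y < p.len) : ∃ j, p.H j x y := by
  by_contra hno
  push Not at hno
  obtain ⟨𝔊, hF, h0, hSN⟩ := exists_full
    ({H, kapN W L, fN W L, check x, check y, checkSet (down p y)} : Set (Name (Cond W L)))
    (by simp) p
  subst h0
  have hHN : H ∈ 𝔊.N := hSN (by simp)
  have hk : kapN W L ∈ 𝔊.N := hSN (by simp)
  have hf : fN W L ∈ 𝔊.N := hSN (by simp)
  have hxN : check x ∈ 𝔊.N := hSN (by simp)
  have hyN : check y ∈ 𝔊.N := hSN (by simp)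
  have hDN : checkSet (down (𝔊.G 0) y) ∈ 𝔊.N := hSN (by simp)
  obtain ⟨_, t2⟩ := Frc.true_list fo_free 𝔊 [⟨H, hHN⟩, ⟨_, hk⟩, ⟨_, hf⟩]
    ⟨omegaName, hF.rich.omega_mem⟩ h
  have t2' : IsFree 𝔊.E (𝔊.cls ⟨_, hf⟩) (𝔊.cls ⟨H, hHN⟩) := t2
  have hne : 𝔊.cls ⟨check y, hyN⟩ ≠ 𝔊.cls ⟨check x, hxN⟩ := by
    intro he
    exact hlt.ne ((rep_self hxN).check_inj (he ▸ rep_self hyN))
  refine t2' (𝔊.cls ⟨_, hyN⟩) (𝔊.cls ⟨_, hxN⟩) (𝔊.cls ⟨_, hDN⟩) ⟨0, hy⟩ ⟨0, hx⟩ hne
    ((val_genName stable_down hF hf).2 ⟨0, y, hyp, rep_self hyN, rep_self hDN⟩) ?_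
  exact (E_checkSet hF.rich hDN).2 ⟨x, ⟨hlt, hno⟩, rep_self hxN⟩

/-- free sets are bounded -/
lemma exists_bound {H : Name (Cond W L)} {p : Cond W L}
    (h : Frc RFree (ev omegaName [H, kapN W L, fN W L]) p) :
    ∃ q ≤ p, ∃ a : W, ∀ r ≤ q, ∀ b : W, fmem (check b) H r → b < a := by
  by_contra hcon
  push Not at hcon
  let I : Type := (L 1).ord.ToType
  have hI : #I = L 1 := by simp [I]
  have hne : Nonempty W := nonempty_W L
  obtain ⟨q, hq, s, hs⟩ := Cond.chain_rec (W := W) 1 (I := I) hI.le (T := W) (hS := hS2.toSetup)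
    (fun i s t r => fmem (check t) H r ∧ ∀ j hj, s j hj < t)
    (fun i s t q r hr h => ⟨fmem_mono h.1 hr, h.2⟩) p (by
      intro i s q hq
      have hcard : #(range (fun j : Iio i => s j.1 j.2)) ≤ ⨆ n, L n := by
        refine mk_range_le.trans ((mk_set_le _).trans ?_)
        rw [hI]
        exact L_le_lam W 1
      obtain ⟨a, ha⟩ := hS2.reg _ hcard
      obtain ⟨r, hr, b, hb, hab⟩ := hcon q hq a
      exact ⟨r, hr, b, hb, fun j hj => (ha _ ⟨⟨j, hj⟩, rfl⟩).trans_le hab⟩)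
  have hcard : #(range s) ≤ ⨆ n, L n := by
    refine mk_range_le.trans ?_
    rw [hI]
    exact L_le_lam W 1
  obtain ⟨a, ha⟩ := hS2.reg _ hcard
  obtain ⟨r, hr, hlen⟩ := Cond.exists_len a q
  have hmem : ∀ i, fmem (check (s i)) H r := fun i => fmem_mono (hs i).1 hr
  have hcount := r.countable_of_free (range s) (fun x hx => (ha x hx).trans hlen) (by
    rintro _ ⟨i, rfl⟩ _ ⟨j, rfl⟩ hlt
    exact free_cond (ell := ell) (h.mono (hr.trans hq)) (hmem i) (hmem j) hlt
      ((ha _ ⟨j, rfl⟩).trans hlen))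
  have hinj : Function.Injective s := by
    intro i j hij
    rcases lt_trichotomy i j with h1 | h1 | h1
    · exact absurd hij ((hs j).2 i h1).ne
    · exact h1
    · exact absurd hij.symm ((hs i).2 j h1).ne
  have h1 : #(range s) = L 1 := by rw [mk_range_eq s hinj, hI]
  have h2 : #(range s) ≤ ℵ₀ := le_aleph0_iff_set_countable.2 hcount
  have h3 : ℵ₀ < L 1 := (aleph0_le_L W 0).trans_lt (hS2.mono Nat.zero_lt_one)
  rw [h1] at h2
  exact absurd h3 (not_lt.2 h2)

/-- free sets are forced to be countable -/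
lemma frc_countable {H : Name (Cond W L)} {p : Cond W L}
    (h : Frc RFree (ev omegaName [H, kapN W L, fN W L]) p) :
    ∃ q ≤ p, Frc REInj (ev omegaName [H, omegaName]) q := by
  obtain ⟨q1, hq1, a, ha⟩ := exists_bound (ell := ell) h
  have hsub : Frc RSub (ev omegaName [H, kapN W L]) p := by
    refine frc_full fo_sub _ _ {fN W L} (by simp) ?_
    intro 𝔊 hF h0 hSN hl
    have hHN := hl H (by simp)
    have hk := hl (kapN W L) (by simp)
    have hf : fN W L ∈ 𝔊.N := hSN (by simp)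
    exact (Frc.true_list fo_free 𝔊 [⟨H, hHN⟩, ⟨_, hk⟩, ⟨_, hf⟩]
      ⟨omegaName, hF.rich.omega_mem⟩ (n := 0) (h.mono h0)).1
  obtain ⟨q2, hq2, S, hSa, hS⟩ := exists_decide_set H (Iio a) (hS2.small a) q1 ha (hsub.mono hq1)
  obtain ⟨q3, hq3, hlen⟩ := Cond.exists_len a q2
  have hS3 := feq_mono hS hq3
  have hmem : ∀ x ∈ S, fmem (check x) H q3 := fun x hx =>
    fmem_congr_right (feq_symm hS3) (fmem_check_of_mem hx q3)
  have hcount := q3.countable_of_free S (fun x hx => lt_trans (hSa hx) hlen) (by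
    intro x hx y hy hlt
    exact free_cond (ell := ell) (h.mono (hq3.trans (hq2.trans hq1))) (hmem x hx) (hmem y hy) hlt
      (lt_trans (hSa hy) hlen))
  obtain ⟨e, he, w, hw, hr⟩ := hS2.nat
  obtain ⟨c, hc⟩ := countable_iff_exists_injOn.1 hcount
  refine ⟨q3, hq3.trans (hq2.trans hq1), frc_full fo_einj _ _ ∅ countable_empty ?_⟩
  intro 𝔊 hF h0 _ hl
  have hHN := hl H (by simp)
  have hoN := hl omegaName (by simp)
  change ∃ j, IsInj 𝔊.E j (𝔊.cls ⟨H, hHN⟩) (𝔊.cls ⟨omegaName, hoN⟩)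
  refine exists_inj_of_rep hF (A := S) (B := Iio w) (g := fun x => e (c x)) ?_ ?_
    (rep_cls_iff.2 ⟨0, feq_mono hS3 h0⟩) ?_
  · intro x _
    rw [← hr]
    exact mem_range_self _
  · intro x hx y hy hxy
    exact hc hx hy (he.injective hxy)
  · rw [← check_eq]
    exact (rep_self hoN).congr (n := 0) (feq_omega_check he hr _)

end Pool.Agent.FreeSets
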