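import Pool.Agent.Lib_MP_38e082_lc.Check
import Pool.Agent.Lib_MP_38e082_lc.Chain
import Pool.Agent.Lib_MP_38e082_lc.Voc

/-!
# Generic models that decide canonical names
-/

set_option linter.unusedSectionVars false

namespace Pool.Agent.FreeSets

open Pool.Agent.Forcing Pool.Agent.Forcing.Name Pool.Agent.Inner Set

/-! ### definability -/

namespace FOx

lemma isInj (i j k : ℕ) : FO.{1} (fun _ E v => IsInj E (v i) (v j) (v k)) :=
  FO.and (FO.isFun _ _ _) (FO.all (FO.all (FO.all (FO.imp (FO.val _ _ _)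
    (FO.imp (FO.val _ _ _) (FO.eq _ _))))))

lemma isFree (i j : ℕ) : FO.{1} (fun _ E v => IsFree E (v i) (v j)) :=
  FO.all (FO.all (FO.all (FO.imp (FO.mem _ _) (FO.imp (FO.mem _ _)
    (FO.imp (FO.not (FO.eq _ _)) (FO.imp (FO.val _ _ _) (FO.not (FO.mem _ _))))))))

lemma isInter (i j k l : ℕ) : FO.{1} (fun _ E v => IsInter E (v i) (v j) (v k) (v l)) :=
  FO.all (FO.iff (FO.mem _ _) (FO.and (FO.mem _ _) (FO.all (FO.all (FO.imp (FO.mem _ _)
    (FO.imp (FO.val _ _ _) (FO.mem _ _)))))))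

end FOx

section
variable {W : Type} [LinearOrder W] [WellFoundedLT W] {L : ℕ → Cardinal.{0}} [hS : Setup W L]
include hS

/-- rich generic models that decide, for each of their names, whether it names an element of `W`;
and if so, are longer than this element -/
structure Full (𝔊 : Gen (Cond W L)) : Prop where
  rich : Rich 𝔊
  dec : ∀ z ∈ 𝔊.N, ∃ n, (∃ a : W, feq z (check a) (𝔊.G n) ∧ a < (𝔊.G n).len) ∨
    ∀ a : W, ∀ r ≤ 𝔊.G n, ¬ feq z (check a) r

lemma Full.decC {𝔊 : Gen (Cond W L)} (h : Full 𝔊) : DecC W 𝔊 := by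
  intro z hz
  obtain ⟨n, ⟨a, ha, _⟩ | h1⟩ := h.dec z hz
  · exact ⟨n, Or.inl ⟨a, ha⟩⟩
  · exact ⟨n, Or.inr h1⟩

lemma Full.len {𝔊 : Gen (Cond W L)} (h : Full 𝔊) {z : 𝔊.M} {a : W} (hz : Rep 𝔊 z (check a)) :
    ∃ n, a < (𝔊.G n).len := by
  obtain ⟨z', rfl, m, hm⟩ := hz
  obtain ⟨n, ⟨b, hb, hlt⟩ | h1⟩ := h.dec z'.1 z'.2
  · have h2 : feq (check a : Name (Cond W L)) (check b) (𝔊.G (max n m)) :=
      feq_trans (feq_symm (feq_mono hm (𝔊.anti (le_max_right _ _))))
        (feq_mono hb (𝔊.anti (le_max_left _ _)))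
    rw [feq_check_iff] at h2
    rw [h2]
    exact ⟨n, hlt⟩
  · exact absurd (feq_mono hm (𝔊.anti (le_max_right n m))) (h1 a _ (𝔊.anti (le_max_left _ _)))

theorem exists_full (S : Set (Name (Cond W L))) (hS' : S.Countable) (p : Cond W L) :
    ∃ 𝔊 : Gen (Cond W L), Full 𝔊 ∧ 𝔊.G 0 = p ∧ S ⊆ 𝔊.N := by
  obtain ⟨𝔊, h1, h2, h3, _, h5⟩ := exists_rich (ι := Empty) (κ := Unit) S hS' (fun k => k.elim)
    (fun _ l => {q : Cond W L | (∃ a : W, feq (l.getD 0 omegaName) (check a) q ∧ a < q.len) ∨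
      ∀ a : W, ∀ r ≤ q, ¬ feq (l.getD 0 omegaName) (check a) r}) (by
      intro _ l p
      by_cases h : ∃ a : W, ∃ r ≤ p, feq (l.getD 0 omegaName) (check a) r
      · obtain ⟨a, r, hr, h⟩ := h
        obtain ⟨q, hq, h2⟩ := Cond.exists_len a r
        exact ⟨q, hq.trans hr, Or.inl ⟨a, feq_mono h hq, h2⟩⟩
      · push Not at h
        exact ⟨p, le_rfl, Or.inr h⟩) p
  refine ⟨𝔊, ⟨h1, fun z hz => ?_⟩, h2, h3⟩
  exact h5 () [z] (by simpa using hz)

/-- to force a first-order property it is enough that it holds in all full generic models -/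
theorem frc_full {R : Fam.{1}} (hR : FO R) (l : List (Name (Cond W L))) (p : Cond W L)
    (S : Set (Name (Cond W L))) (hS' : S.Countable)
    (h : ∀ (𝔊 : Gen (Cond W L)) (hF : Full 𝔊), 𝔊.G 0 ≤ p → S ⊆ 𝔊.N →
      ∀ (hl : ∀ x ∈ l, x ∈ 𝔊.N),
        R 𝔊.M 𝔊.E (ev hF.rich.om (l.attach.map fun x => 𝔊.cls ⟨x.1, hl x.1 x.2⟩))) :
    Frc R (ev omegaName l) p := by
  refine Frc.dense hR fun q hq => ?_
  obtain ⟨𝔊, hF, h0, hSN⟩ := exists_full (S ∪ {x | x ∈ l})
    (hS'.union (List.finite_toSet l).countable) q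
  have hl : ∀ x ∈ l, x ∈ 𝔊.N := fun x hx => hSN (Or.inr hx)
  have h5 := h 𝔊 hF (by rw [h0]; exact hq) (fun x hx => hSN (Or.inl hx)) hl
  let l' : List 𝔊.N := l.attach.map fun x => ⟨x.1, hl x.1 x.2⟩
  have e4 : (l.attach.map fun x => 𝔊.cls ⟨x.1, hl x.1 x.2⟩) = l'.map 𝔊.cls := by
    simp only [l', List.map_map]; rfl
  have e5 : l'.map Subtype.val = l := by
    simp only [l', List.map_map]
    exact List.attach_map_subtype_val l
  rw [e4] at h5
  have h6 := (truth_list hR 𝔊 l' ⟨omegaName, hF.rich.omega_mem⟩).1 h5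
  obtain ⟨n, hn⟩ := h6
  rw [e5] at hn
  exact ⟨𝔊.G n, by rw [← h0]; exact 𝔊.anti (Nat.zero_le n), hn⟩

end

lemma feq_ev {P : Type} [Preorder P] [OrderTop P] {l l' : List (Name P)}
    {p : P} (h : List.Forall₂ (fun x y => feq x y p) l l') (i : ℕ) :
    feq (ev omegaName l i) (ev omegaName l' i) p := by
  induction h generalizing i with
  | nil => exact feq_refl _ _
  | cons h1 _ ih =>
    cases i with
    | zero => exact h1
    | succ i => exact ih i

/-- replacing names in a list -/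
lemma frc_congr_list {P : Type} [Preorder P] [OrderTop P] {R : Fam.{1}} {l l' : List (Name P)}
    {p : P} (h : List.Forall₂ (fun x y => feq x y p) l l') (hf : Frc R (ev omegaName l) p) :
    Frc R (ev omegaName l') p := Frc.congr_names (feq_ev h) hf

end Pool.Agent.FreeSets
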