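import Pool.Agent.Lib_MP_38e082_lc.Decide

/-!
# Canonical names of functions; ordinals and cardinals of the generic model
-/

set_option linter.unusedSectionVars false

namespace Pool.Agent.FreeSets

open Pool.Agent.Forcing Pool.Agent.Forcing.Name Pool.Agent.Inner Set Cardinal

variable {W : Type} [LinearOrder W] [WellFoundedLT W] {L : ℕ → Cardinal.{0}} [hS : Setup W L]
include hS

/-! ### existence of values -/

/-- a name listing pairs as a function: uniqueness of values -/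
def Coherent (𝔊 : Gen (Cond W L)) {ι : Type} (A B : ι → Name (Cond W L)) (c : ι → Cond W L) :
    Prop :=
  ∀ i i' n, 𝔊.G n ≤ c i → 𝔊.G n ≤ c i' → feq (A i) (A i') (𝔊.G n) → feq (B i) (B i') (𝔊.G n)

lemma val_unique {𝔊 : Gen (Cond W L)} (hF : Full 𝔊) {ι : Type} {A B : ι → Name (Cond W L)}
    {c : ι → Cond W L} (h : Name.mk ι (fun i => opairName (A i) (B i)) c ∈ 𝔊.N)
    (hc : Coherent 𝔊 A B c) {u v v' : 𝔊.M} (h1 : Val 𝔊.E (𝔊.cls ⟨_, h⟩) u v)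
    (h2 : Val 𝔊.E (𝔊.cls ⟨_, h⟩) u v') : v = v' := by
  obtain ⟨i, n, hi, hu, hv⟩ := (val_mk hF.rich h).1 h1
  obtain ⟨i', n', hi', hu', hv'⟩ := (val_mk hF.rich h).1 h2
  obtain ⟨m, hm⟩ := hu.feq hu'
  have h3 := hc i i' (max m (max n n')) ((𝔊.anti (by omega)).trans hi)
    ((𝔊.anti (by omega)).trans hi') (feq_mono hm (𝔊.anti (le_max_left _ _)))
  exact (hv.congr h3).unique hv'

lemma exists_val {𝔊 : Gen (Cond W L)} (hF : Full 𝔊) {ι : Type} {A B : ι → Name (Cond W L)}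
    {c : ι → Cond W L} (h : Name.mk ι (fun i => opairName (A i) (B i)) c ∈ 𝔊.N)
    (hc : Coherent 𝔊 A B c) {u : 𝔊.M} {i : ι} {n : ℕ} (hn : 𝔊.G n ≤ c i)
    (hu : Rep 𝔊 u (A i)) : ∃ v, Rep 𝔊 v (B i) ∧ Val 𝔊.E (𝔊.cls ⟨_, h⟩) u v := by
  obtain ⟨u', rfl⟩ := 𝔊.exists_rep u
  obtain ⟨m, hm⟩ := rep_cls_iff.1 hu
  have hfo : FO.{1} (fun _ E v => ∃ y, Val E (v 0) (v 1) y) := FO.ex (FO.val _ _ _)
  have h1 : Frc (fun _ E v => ∃ y, Val E (v 0) (v 1) y)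
      (ev omegaName [Name.mk ι (fun i => opairName (A i) (B i)) c, u'.1]) (𝔊.G (max n m)) := by
    refine frc_full hfo _ _ {B i} (by simp) ?_
    intro 𝔊' hF' h0 hSN hl
    have hfN := hl (Name.mk ι (fun i => opairName (A i) (B i)) c) (by simp)
    have huN := hl u'.1 (by simp)
    have hB : B i ∈ 𝔊'.N := hSN (by simp)
    refine ⟨𝔊'.cls ⟨B i, hB⟩, ?_⟩
    change Val 𝔊'.E (𝔊'.cls ⟨_, hfN⟩) (𝔊'.cls ⟨u'.1, huN⟩) _
    rw [val_mk hF'.rich hfN]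
    exact ⟨i, 0, (h0.trans (𝔊.anti (le_max_left _ _))).trans hn,
      rep_cls_iff.2 ⟨0, feq_mono hm (h0.trans (𝔊.anti (le_max_right _ _)))⟩, rep_self hB⟩
  obtain ⟨v, hv⟩ := Frc.true_list hfo 𝔊 [⟨_, h⟩, u'] ⟨omegaName, hF.rich.omega_mem⟩ h1
  have hv' : Val 𝔊.E (𝔊.cls ⟨_, h⟩) (𝔊.cls u') v := hv
  obtain ⟨i', n', hi', hu', hvr⟩ := (val_mk hF.rich h).1 hv'
  obtain ⟨k, hk⟩ := hu'.feq hu
  have h3 := hc i' i (max k (max n n')) ((𝔊.anti (by omega)).trans hi')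
    ((𝔊.anti (by omega)).trans hn) (feq_mono hk (𝔊.anti (le_max_left _ _)))
  exact ⟨v, hvr.congr h3, hv'⟩

/-- canonical name of a function with domain `A ⊆ W`, given by names of the values -/
noncomputable def funName (A : Set W) (g : W → Name (Cond W L)) : Name (Cond W L) :=
  Name.mk A (fun x => opairName (check x.1) (g x.1)) (fun _ => ⊤)

lemma coherent_funName (𝔊 : Gen (Cond W L)) (A : Set W) (g : W → Name (Cond W L)) :
    Coherent 𝔊 (fun x : A => check x.1) (fun x : A => g x.1) (fun _ => ⊤) := by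
  intro i i' n _ _ h
  rw [feq_check_iff] at h
  have h2 : i = i' := Subtype.ext h
  subst h2
  exact feq_refl _ _

lemma val_funName {𝔊 : Gen (Cond W L)} (hF : Full 𝔊) {A : Set W} {g : W → Name (Cond W L)}
    (h : funName A g ∈ 𝔊.N) {u v : 𝔊.M} :
    Val 𝔊.E (𝔊.cls ⟨_, h⟩) u v ↔ ∃ x ∈ A, Rep 𝔊 u (check x) ∧ Rep 𝔊 v (g x) := by
  have := val_mk hF.rich (A := fun x : A => check x.1) (B := fun x : A => g x.1)
    (c := fun _ => ⊤) h (u := u) (v := v)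
  refine this.trans ?_
  constructor
  · rintro ⟨x, n, _, h1, h2⟩
    exact ⟨x.1, x.2, h1, h2⟩
  · rintro ⟨x, hx, h1, h2⟩
    exact ⟨⟨x, hx⟩, 0, le_top, h1, h2⟩

lemma exists_val_funName {𝔊 : Gen (Cond W L)} (hF : Full 𝔊) {A : Set W}
    {g : W → Name (Cond W L)} (h : funName A g ∈ 𝔊.N) {u : 𝔊.M} {x : W} (hx : x ∈ A)
    (hu : Rep 𝔊 u (check x)) : ∃ v, Rep 𝔊 v (g x) ∧ Val 𝔊.E (𝔊.cls ⟨_, h⟩) u v :=
  exists_val hF (A := fun x : A => check x.1) (B := fun x : A => g x.1) (c := fun _ => ⊤) h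
    (coherent_funName 𝔊 A g) (i := ⟨x, hx⟩) (n := 0) le_top hu

lemma val_funName_unique {𝔊 : Gen (Cond W L)} (hF : Full 𝔊) {A : Set W}
    {g : W → Name (Cond W L)} (h : funName A g ∈ 𝔊.N) {u v v' : 𝔊.M}
    (h1 : Val 𝔊.E (𝔊.cls ⟨_, h⟩) u v) (h2 : Val 𝔊.E (𝔊.cls ⟨_, h⟩) u v') : v = v' :=
  val_unique hF (A := fun x : A => check x.1) (B := fun x : A => g x.1) (c := fun _ => ⊤) h
    (coherent_funName 𝔊 A g) h1 h2

/-- injections between subsets of `W` give injections in the model -/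
lemma isInj_funName {𝔊 : Gen (Cond W L)} (hF : Full 𝔊) {A B : Set W} {g : W → W}
    (hg : ∀ x ∈ A, g x ∈ B) (hinj : InjOn g A) (h : funName A (fun x => check (g x)) ∈ 𝔊.N)
    (hA : checkSet A ∈ 𝔊.N) (hB : checkSet B ∈ 𝔊.N) :
    IsInj 𝔊.E (𝔊.cls ⟨_, h⟩) (𝔊.cls ⟨_, hA⟩) (𝔊.cls ⟨_, hB⟩) := by
  refine ⟨⟨?_, ?_⟩, ?_⟩
  · intro z hz
    obtain ⟨u, v, h1, h2⟩ := isPair_of_mem_mk hF.rich (A := fun x : A => check x.1)
      (B := fun x : A => check (g x.1)) (c := fun _ => ⊤) h hz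
    obtain ⟨x, hx, hu, hv⟩ := (val_funName hF h).1 h2
    exact ⟨u, v, (E_checkSet hF.rich hA).2 ⟨x, hx, hu⟩,
      (E_checkSet hF.rich hB).2 ⟨g x, hg x hx, hv⟩, h1⟩
  · intro u hu
    obtain ⟨x, hx, hu'⟩ := (E_checkSet hF.rich hA).1 hu
    obtain ⟨v, _, hv⟩ := exists_val_funName hF h hx hu'
    exact ⟨v, hv, fun v' hv' => val_funName_unique hF h hv' hv⟩
  · intro u u' v h1 h2
    obtain ⟨x, hx, hu, hv⟩ := (val_funName hF h).1 h1
    obtain ⟨x', hx', hu', hv'⟩ := (val_funName hF h).1 h2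
    have e : x = x' := hinj hx hx' (hv.check_inj hv')
    subst e
    exact hu.unique hu'

/-! ### ordinals and cardinals -/

lemma isOrd_checkSet {𝔊 : Gen (Cond W L)} (hF : Full 𝔊) {S : Set W} (hlow : IsLowerSet S)
    (h : checkSet S ∈ 𝔊.N) : IsOrd 𝔊.E (𝔊.cls ⟨_, h⟩) := by
  have hD := hF.decC
  constructor
  · intro y hy t ht
    obtain ⟨x, hx, hyr⟩ := (E_checkSet hF.rich h).1 hy
    obtain ⟨u, hu, htr⟩ := (E_rep_check hD hyr).1 ht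
    exact (E_checkSet hF.rich h).2 ⟨u, hlow hu.le hx, htr⟩
  · intro y hy t ht s hs
    obtain ⟨x, hx, hyr⟩ := (E_checkSet hF.rich h).1 hy
    obtain ⟨u, hu, htr⟩ := (E_rep_check hD hyr).1 ht
    obtain ⟨v, hv, hsr⟩ := (E_rep_check hD htr).1 hs
    exact (E_rep_check hD hyr).2 ⟨v, hv.trans hu, hsr⟩

lemma isCard_checkSet {𝔊 : Gen (Cond W L)} (hF : Full 𝔊) {S : Set W} (hlow : IsLowerSet S)
    (hcard : ∀ a ∈ S, #(Iio a) < #S) (h : checkSet S ∈ 𝔊.N) :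
    IsCard 𝔊.E (𝔊.cls ⟨_, h⟩) := by
  refine ⟨isOrd_checkSet hF hlow h, ?_⟩
  intro y hy i hi
  obtain ⟨a, ha, n, hn⟩ : ∃ a ∈ S, Rep 𝔊 y (check a) := (E_checkSet hF.rich h).1 hy
  obtain ⟨hn1, k, hk⟩ := hn
  subst hn1
  obtain ⟨i', rfl⟩ := 𝔊.exists_rep i
  obtain ⟨m, hm⟩ := (truth_list fo_inj 𝔊 [i', ⟨_, h⟩, n]
    ⟨omegaName, hF.rich.omega_mem⟩).1 hi
  refine no_inj S a (hcard a ha) i'.1 (𝔊.G (max k m)) ?_
  refine frc_congr_list ?_ (hm.mono (𝔊.anti (le_max_right k m)))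
  exact .cons (feq_refl _ _) (.cons (feq_refl _ _) (.cons
    (feq_mono hk (𝔊.anti (le_max_left _ _))) .nil))

/-- injections between subsets of `W` are injections in the model, for arbitrary names of the
domain -/
lemma exists_inj_of_rep {𝔊 : Gen (Cond W L)} (hF : Full 𝔊) {A B : Set W} {g : W → W}
    (hg : ∀ x ∈ A, g x ∈ B) (hinj : InjOn g A) {a b : 𝔊.M} (ha : Rep 𝔊 a (checkSet A))
    (hb : Rep 𝔊 b (checkSet B)) : ∃ i, IsInj 𝔊.E i a b := by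
  obtain ⟨a', rfl, n, hn⟩ := ha
  obtain ⟨b', rfl, m, hm⟩ := hb
  have hfo : FO.{1} (fun _ E v => ∃ i, IsInj E i (v 0) (v 1)) := FO.ex (FOx.isInj 0 1 2)
  have h1 : Frc (fun _ E v => ∃ i, IsInj E i (v 0) (v 1)) (ev omegaName [a'.1, b'.1])
      (𝔊.G (max n m)) := by
    refine frc_full hfo _ _ {checkSet A, checkSet B, funName A (fun x => check (g x))}
      (by simp) ?_
    intro 𝔊' hF' h0 hSN hl
    have ha := hl a'.1 (by simp)
    have hb := hl b'.1 (by simp)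
    have hA : checkSet A ∈ 𝔊'.N := hSN (by simp)
    have hB : checkSet B ∈ 𝔊'.N := hSN (by simp)
    have hf : funName A (fun x => check (g x)) ∈ 𝔊'.N := hSN (by simp)
    have e1 : 𝔊'.cls ⟨a'.1, ha⟩ = 𝔊'.cls ⟨_, hA⟩ :=
      (𝔊'.cls_eq).2 ⟨0, feq_mono hn (h0.trans (𝔊.anti (le_max_left _ _)))⟩
    have e2 : 𝔊'.cls ⟨b'.1, hb⟩ = 𝔊'.cls ⟨_, hB⟩ :=
      (𝔊'.cls_eq).2 ⟨0, feq_mono hm (h0.trans (𝔊.anti (le_max_right _ _)))⟩
    refine ⟨𝔊'.cls ⟨_, hf⟩, ?_⟩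
    change IsInj 𝔊'.E _ (𝔊'.cls ⟨a'.1, ha⟩) (𝔊'.cls ⟨b'.1, hb⟩)
    rw [e1, e2]
    exact isInj_funName hF' hg hinj hf hA hB
  exact Frc.true_list hfo 𝔊 [a', b'] ⟨omegaName, hF.rich.omega_mem⟩ h1

/-! ### subsets of canonical sets -/

lemma sub_check {z : Name (Cond W L)} {A : Set W} {p : Cond W L}
    (h : Frc RSub (ev omegaName [z, checkSet A]) p) :
    (∀ q ≤ p, ∀ b : W, fmem (check b) z q → b ∈ A) ∧ Frc RSub (ev omegaName [z, kapN W L]) p := by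
  constructor
  · intro q hq b hb
    obtain ⟨𝔊, hF, h0, hSN⟩ := exists_full
      ({z, checkSet A, check b} : Set (Name (Cond W L))) (by simp) q
    subst h0
    have hz : z ∈ 𝔊.N := hSN (by simp)
    have hA : checkSet A ∈ 𝔊.N := hSN (by simp)
    have hbN : check b ∈ 𝔊.N := hSN (by simp)
    have t0 : Sub 𝔊.E (𝔊.cls ⟨z, hz⟩) (𝔊.cls ⟨_, hA⟩) :=
      Frc.true_list fo_sub 𝔊 [⟨z, hz⟩, ⟨_, hA⟩] ⟨omegaName, hF.rich.omega_mem⟩ (h.mono hq)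
    obtain ⟨x, hx, hxr⟩ := (E_checkSet hF.rich hA).1 (t0 (𝔊.cls ⟨check b, hbN⟩) ⟨0, hb⟩)
    rw [(rep_self hbN).check_inj hxr]; exact hx
  · refine frc_full fo_sub _ _ {checkSet A} (by simp) ?_
    intro 𝔊 hF h0 hSN hl
    have hz := hl z (by simp)
    have hk := hl (kapN W L) (by simp)
    have hA : checkSet A ∈ 𝔊.N := hSN (by simp)
    have t0 : Sub 𝔊.E (𝔊.cls ⟨z, hz⟩) (𝔊.cls ⟨_, hA⟩) :=
      Frc.true_list fo_sub 𝔊 [⟨z, hz⟩, ⟨_, hA⟩] ⟨omegaName, hF.rich.omega_mem⟩ (n := 0)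
        (h.mono h0)
    intro t ht
    obtain ⟨x, _, hxr⟩ := (E_checkSet hF.rich hA).1 (t0 t ht)
    exact (E_checkSet hF.rich hk).2 ⟨x, mem_univ x, hxr⟩

lemma exists_decide_sub {z : Name (Cond W L)} {A : Set W} (hA : #A ≤ lam L) {p : Cond W L}
    (h : Frc RSub (ev omegaName [z, checkSet A]) p) :
    ∃ q ≤ p, ∃ S ⊆ A, feq z (checkSet S) q :=
  exists_decide_set z A hA p (sub_check h).1 (sub_check h).2

end Pool.Agent.FreeSets
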