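import Pool.Agent.Lib_MP_38e082_lc.Map

/-!
# Intersections of `κ` many values have size less than `λ`
-/

set_option linter.unusedSectionVars false

namespace Pool.Agent.FreeSets

open Pool.Agent.Forcing Pool.Agent.Forcing.Name Pool.Agent.Inner Set Cardinal

/-- the property violated by the generic set mapping -/
abbrev RBad : Fam.{1} := fun _ E v => Sub E (v 0) (v 4) ∧ IsInj E (v 1) (v 4) (v 0) ∧
  IsInter E (v 5) (v 4) (v 0) (v 2) ∧ IsInj E (v 3) (v 6) (v 2)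

lemma fo_bad : FO RBad :=
  FO.and (FO.sub _ _) (FO.and (FOx.isInj _ _ _) (FO.and (FOx.isInter _ _ _ _) (FOx.isInj _ _ _)))

lemma isFun_mem {M : Type*} {E : M → M → Prop} (hE : ModelsZFC E) {f a b x y : M}
    (hf : IsFun E f a b) (h : Val E f x y) : E x a ∧ E y b := by
  obtain ⟨z, hz1, hz2⟩ := h
  obtain ⟨x', y', hx', hy', hp⟩ := hf.1 z hz2
  rw [isPair_iff hE] at hz1 hp
  rw [hz1, pair_inj hE] at hp
  rw [hp.1, hp.2]; exact ⟨hx', hy'⟩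

lemma isInj_mono {M : Type*} {E : M → M → Prop} {i a b c : M} (h : IsInj E i a b)
    (hbc : Sub E b c) : IsInj E i a c := by
  refine ⟨⟨fun z hz => ?_, h.1.2⟩, h.2⟩
  obtain ⟨x, y, hx, hy, hxy⟩ := h.1.1 z hz
  exact ⟨x, y, hx, hbc y hy, hxy⟩

variable {W : Type} [LinearOrder W] [WellFoundedLT W] {L : ℕ → Cardinal.{0}} {ell : W}
  [hS2 : Setup2 W L ell]
include hS2

lemma card_univ_W : lam L < #(univ : Set W) := by
  by_contra h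
  obtain ⟨a, ha⟩ := hS2.reg univ (not_lt.1 h)
  exact lt_irrefl _ (ha a (mem_univ a))

theorem not_bad (X i I e : Name (Cond W L)) (p : Cond W L) :
    ¬ Frc RBad (ev omegaName [X, i, I, e, kapN W L, fN W L, check ell]) p := by
  intro hbad
  -- the injection `e`
  have he : Frc RInj (ev omegaName [e, check ell, I]) p := by
    refine frc_full fo_inj _ _ {X, i, kapN W L, fN W L} (by simp) ?_
    intro 𝔊 hF h0 hSN hl
    have he := hl e (by simp)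
    have hell := hl (check ell) (by simp)
    have hI := hl I (by simp)
    have hX : X ∈ 𝔊.N := hSN (by simp)
    have hi : i ∈ 𝔊.N := hSN (by simp)
    have hk : kapN W L ∈ 𝔊.N := hSN (by simp)
    have hf : fN W L ∈ 𝔊.N := hSN (by simp)
    have t := Frc.true_list fo_bad 𝔊 [⟨X, hX⟩, ⟨i, hi⟩, ⟨I, hI⟩, ⟨e, he⟩, ⟨_, hk⟩, ⟨_, hf⟩,
      ⟨_, hell⟩] ⟨omegaName, hF.rich.omega_mem⟩ (n := 0) (hbad.mono h0)
    exact t.2.2.2
  obtain ⟨q, hq, hdec⟩ := exists_decide (R := RVal) [e] (Iio ell) (hS2.small ell) p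
  have key : ∀ x < ell, ∃ b : W, Frc RVal (ev omegaName [check x, check b, e]) q := by
    intro x hx
    rcases hdec x hx with h | h
    · exact h
    · exfalso
      obtain ⟨𝔊, hF, h0, hSN⟩ := exists_full
        ({X, i, I, e, kapN W L, fN W L, check ell, check x} : Set (Name (Cond W L))) (by simp) q
      subst h0
      have he' : e ∈ 𝔊.N := hSN (by simp)
      have hell : check ell ∈ 𝔊.N := hSN (by simp)
      have hI : I ∈ 𝔊.N := hSN (by simp)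
      have hX : X ∈ 𝔊.N := hSN (by simp)
      have hi : i ∈ 𝔊.N := hSN (by simp)
      have hk : kapN W L ∈ 𝔊.N := hSN (by simp)
      have hf : fN W L ∈ 𝔊.N := hSN (by simp)
      have hxN : check x ∈ 𝔊.N := hSN (by simp)
      obtain ⟨_, _, t3, t4⟩ := Frc.true_list fo_bad 𝔊 [⟨X, hX⟩, ⟨i, hi⟩, ⟨I, hI⟩, ⟨e, he'⟩,
        ⟨_, hk⟩, ⟨_, hf⟩, ⟨_, hell⟩] ⟨omegaName, hF.rich.omega_mem⟩ (hbad.mono hq)
      have t3' : IsInter 𝔊.E (𝔊.cls ⟨_, hf⟩) (𝔊.cls ⟨_, hk⟩) (𝔊.cls ⟨X, hX⟩)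
        (𝔊.cls ⟨I, hI⟩) := t3
      have t4' : IsInj 𝔊.E (𝔊.cls ⟨e, he'⟩) (𝔊.cls ⟨_, hell⟩) (𝔊.cls ⟨I, hI⟩) := t4
      obtain ⟨y, hy, _⟩ := t4'.1.2 (𝔊.cls ⟨_, hxN⟩)
        ((E_rep_check hF.decC (rep_self hell)).2 ⟨x, hx, rep_self hxN⟩)
      have hyk := ((t3' y).1 (isFun_mem hF.rich.zfc t4'.1 hy).2).1
      obtain ⟨b, _, hyb⟩ := (E_checkSet hF.rich hk).1 hyk
      obtain ⟨y', rfl⟩ := 𝔊.exists_rep y
      obtain ⟨n, hn⟩ := rep_cls_iff.1 hyb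
      obtain ⟨m, hm⟩ := (truth_list fo_val 𝔊 [⟨_, hxN⟩, y', ⟨e, he'⟩]
        ⟨omegaName, hF.rich.omega_mem⟩).1 hy
      refine h b (𝔊.G (max n m)) (𝔊.anti (Nat.zero_le _)) ?_
      refine frc_congr_list ?_ (hm.mono (𝔊.anti (le_max_right n m)))
      exact .cons (feq_refl _ _) (.cons (feq_mono hn (𝔊.anti (le_max_left _ _)))
        (.cons (feq_refl _ _) .nil))
  choose! g hg using key
  have hginj : InjOn g (Iio ell) := by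
    intro x hx y hy hxy
    have h1 := hg x hx
    rw [hxy] at h1
    exact inj_unique (he.mono hq) h1 (hg y hy)
  -- the promise
  have hYcard : #(g '' Iio ell) = lam L := by
    rw [mk_image_eq_of_injOn _ _ hginj]
    exact hS2.card_ell
  obtain ⟨a0, ha0⟩ := hS2.reg (g '' Iio ell) hYcard.le
  obtain ⟨q1, hq1, hlen1⟩ := Cond.exists_len a0 q
  obtain ⟨q2, hq2, hlen2, hY⟩ := Cond.exists_promise q1 (g '' Iio ell)
    (fun x hx => (ha0 x hx).trans hlen1) hYcard.ge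
  have hq2p : q2 ≤ p := hq2.trans (hq1.trans hq)
  -- a large element of `X`
  obtain ⟨r, hr, d, hd1, hd2, hdX⟩ : ∃ r ≤ q2, ∃ d, q2.len ≤ d ∧ d < r.len ∧
      fmem (check d) X r := by
    obtain ⟨𝔊, hF, h0, hSN⟩ := exists_full
      ({X, i, I, e, kapN W L, fN W L, check ell, check q2.len} : Set (Name (Cond W L)))
      (by simp) q2
    subst h0
    have he' : e ∈ 𝔊.N := hSN (by simp)
    have hell : check ell ∈ 𝔊.N := hSN (by simp)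
    have hI : I ∈ 𝔊.N := hSN (by simp)
    have hX : X ∈ 𝔊.N := hSN (by simp)
    have hi : i ∈ 𝔊.N := hSN (by simp)
    have hk : kapN W L ∈ 𝔊.N := hSN (by simp)
    have hf : fN W L ∈ 𝔊.N := hSN (by simp)
    have hdN : check (𝔊.G 0).len ∈ 𝔊.N := hSN (by simp)
    obtain ⟨t1, t2, _, _⟩ := Frc.true_list fo_bad 𝔊 [⟨X, hX⟩, ⟨i, hi⟩, ⟨I, hI⟩, ⟨e, he'⟩,
      ⟨_, hk⟩, ⟨_, hf⟩, ⟨_, hell⟩] ⟨omegaName, hF.rich.omega_mem⟩ (hbad.mono hq2p)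
    have t1' : Sub 𝔊.E (𝔊.cls ⟨X, hX⟩) (𝔊.cls ⟨_, hk⟩) := t1
    have t2' : IsInj 𝔊.E (𝔊.cls ⟨i, hi⟩) (𝔊.cls ⟨_, hk⟩) (𝔊.cls ⟨X, hX⟩) := t2
    have hex : ∃ x, 𝔊.E x (𝔊.cls ⟨X, hX⟩) ∧ ¬ 𝔊.E x (𝔊.cls ⟨_, hdN⟩) := by
      by_contra hno
      push Not at hno
      have t3 := isInj_mono t2' hno
      obtain ⟨m, hm⟩ := (truth_list fo_inj 𝔊 [⟨i, hi⟩, ⟨_, hk⟩, ⟨_, hdN⟩]
        ⟨omegaName, hF.rich.omega_mem⟩).1 t3
      exact no_inj univ _ ((hS2.small _).trans_lt (card_univ_W (ell := ell))) i (𝔊.G m) hm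
    obtain ⟨x, hx1, hx2⟩ := hex
    obtain ⟨d, _, hxd⟩ := (E_checkSet hF.rich hk).1 (t1' x hx1)
    have hd : (𝔊.G 0).len ≤ d := by
      by_contra hlt
      exact hx2 ((E_iff_lt hF.decC hxd (rep_self hdN)).2 (not_le.1 hlt))
    obtain ⟨n, hn⟩ := hF.len hxd
    obtain ⟨x', rfl⟩ := 𝔊.exists_rep x
    obtain ⟨m, hm⟩ := rep_cls_iff.1 hxd
    obtain ⟨k, hk'⟩ := hx1
    refine ⟨𝔊.G (max n (max m k)), 𝔊.anti (Nat.zero_le _), d, hd, ?_, ?_⟩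
    · have hle : 𝔊.G (max n (max m k)) ≤ 𝔊.G n := 𝔊.anti (le_max_left _ _)
      exact hn.trans_le hle.len
    · exact fmem_congr_left (feq_mono hm (𝔊.anti (by omega))) (fmem_mono hk' (𝔊.anti (by omega)))
  obtain ⟨j, y, ⟨a, ha, rfl⟩, hH⟩ := hr.prom d hd1 hd2 _ hY
  -- contradiction
  obtain ⟨𝔊, hF, h0, hSN⟩ := exists_full
    ({X, i, I, e, kapN W L, fN W L, check ell, check d, check a, check (g a),
      checkSet (down r d)} : Set (Name (Cond W L))) (by simp) r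
  subst h0
  have he' : e ∈ 𝔊.N := hSN (by simp)
  have hell : check ell ∈ 𝔊.N := hSN (by simp)
  have hI : I ∈ 𝔊.N := hSN (by simp)
  have hX : X ∈ 𝔊.N := hSN (by simp)
  have hi : i ∈ 𝔊.N := hSN (by simp)
  have hk : kapN W L ∈ 𝔊.N := hSN (by simp)
  have hf : fN W L ∈ 𝔊.N := hSN (by simp)
  have hdN : check d ∈ 𝔊.N := hSN (by simp)
  have haN : check a ∈ 𝔊.N := hSN (by simp)
  have hgN : check (g a) ∈ 𝔊.N := hSN (by simp)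
  have hDN : checkSet (down (𝔊.G 0) d) ∈ 𝔊.N := hSN (by simp)
  obtain ⟨_, _, t3, t4⟩ := Frc.true_list fo_bad 𝔊 [⟨X, hX⟩, ⟨i, hi⟩, ⟨I, hI⟩, ⟨e, he'⟩,
    ⟨_, hk⟩, ⟨_, hf⟩, ⟨_, hell⟩] ⟨omegaName, hF.rich.omega_mem⟩ (hbad.mono (hr.trans hq2p))
  have t3' : IsInter 𝔊.E (𝔊.cls ⟨_, hf⟩) (𝔊.cls ⟨_, hk⟩) (𝔊.cls ⟨X, hX⟩)
    (𝔊.cls ⟨I, hI⟩) := t3
  have t4' : IsInj 𝔊.E (𝔊.cls ⟨e, he'⟩) (𝔊.cls ⟨_, hell⟩) (𝔊.cls ⟨I, hI⟩) := t4
  have t5 : Val 𝔊.E (𝔊.cls ⟨e, he'⟩) (𝔊.cls ⟨_, haN⟩) (𝔊.cls ⟨_, hgN⟩) :=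
    Frc.true_list fo_val 𝔊 [⟨_, haN⟩, ⟨_, hgN⟩, ⟨e, he'⟩] ⟨omegaName, hF.rich.omega_mem⟩
      ((hg a ha).mono (hr.trans (hq2.trans hq1)))
  have t6 := ((t3' _).1 (isFun_mem hF.rich.zfc t4'.1 t5).2).2 (𝔊.cls ⟨_, hdN⟩)
    (𝔊.cls ⟨_, hDN⟩) ⟨0, hdX⟩
    ((val_genName stable_down hF hf).2 ⟨0, d, hd2, rep_self hdN, rep_self hDN⟩)
  obtain ⟨x, hx, hxr⟩ := (E_checkSet hF.rich hDN).1 t6
  have e1 := (rep_self hgN).check_inj hxr
  rw [← e1] at hx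
  exact hx.2 j hH

end Pool.Agent.FreeSets
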