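import Pool.Agent.Lib_MP_38e082_lc.Lam
import Mathlib.SetTheory.Cardinal.Aleph
import Mathlib.SetTheory.Cardinal.Cofinality.Ordinal

/-!
# The instance with `λ = ℶ_ω`
-/

namespace Pool.Agent.FreeSets

open Cardinal Set Ordinal

/-- the well-order of type `(ℶ_ω)⁺` -/
abbrev WW : Type := (Order.succ (beth (ω : Ordinal.{0}))).ord.ToType

/-- the cardinals `ℶ_n` -/
noncomputable abbrev LL (n : ℕ) : Cardinal.{0} := beth (n : Ordinal.{0})

lemma lam_LL : (⨆ n, LL n) = beth (ω : Ordinal.{0}) := by
  apply le_antisymm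
  · exact ciSup_le' fun n => beth_mono (natCast_lt_omega0 n).le
  · rw [beth_limit isSuccLimit_omega0]
    refine ciSup_le' fun a => ?_
    obtain ⟨n, hn⟩ := lt_omega0.1 a.2
    rw [hn]
    exact le_ciSup (f := LL) Cardinal.bddAbove_of_small n

lemma lt_lam_LL {c : Cardinal.{0}} (h : c < beth (ω : Ordinal.{0})) : ∃ n, c < LL n := by
  rw [← lam_LL] at h
  exact exists_lt_of_lt_ciSup' h

/-- the order type of the initial segment below `x` -/
noncomputable abbrev tp (x : WW) : Ordinal.{0} := typein (α := WW) (· < ·) x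

lemma card_tp (x : WW) : (tp x).card = #(Iio x) := rfl

lemma tp_lt {x y : WW} : tp x < tp y ↔ x < y := typein_lt_typein (α := WW) (· < ·)

lemma exists_tp {o : Ordinal.{0}} (h : o < (Order.succ (beth (ω : Ordinal.{0}))).ord) :
    ∃ x : WW, tp x = o := by
  have h2 : o < type (α := WW) (· < ·) := by
    rw [type_toType]; exact h
  exact typein_surj (α := WW) (· < ·) h2

lemma exists_tp_le {o : Ordinal.{0}} (h : o ≤ (beth (ω : Ordinal.{0})).ord) :
    ∃ x : WW, tp x = o :=
  exists_tp (h.trans_lt (ord_lt_ord.2 (Order.lt_succ _)))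

lemma exists_ell : ∃ x : WW, tp x = (beth (ω : Ordinal.{0})).ord := exists_tp_le le_rfl

/-- the element of `WW` corresponding to `ℶ_ω` -/
noncomputable def ell0 : WW := exists_ell.choose

lemma tp_ell0 : tp ell0 = (beth (ω : Ordinal.{0})).ord := exists_ell.choose_spec

lemma aleph0_le : ℵ₀ ≤ beth (ω : Ordinal.{0}) := aleph0_le_beth _

instance setup0 : Setup WW LL where
  mono := fun m n h => beth_strictMono (Nat.cast_lt.2 h)
  inf := aleph0_le_beth _
  small := by
    intro a
    rw [lam_LL, ← card_tp]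
    have h1 : tp a < (Order.succ (beth (ω : Ordinal.{0}))).ord := by
      have := typein_lt_type (α := WW) (· < ·) a
      rwa [type_toType] at this
    exact Order.lt_succ_iff.1 (lt_ord.1 h1)
  reg := by
    intro s hs
    rw [lam_LL] at hs
    by_contra hcon
    push Not at hcon
    have h1 : IsCofinal s := fun a => by
      obtain ⟨x, hx, h⟩ := hcon a
      exact ⟨x, hx, h⟩
    have h2 := Order.cof_le h1
    rw [cof_toType, (isRegular_succ aleph0_le).cof_ord] at h2
    exact absurd (Order.lt_succ (beth (ω : Ordinal.{0}))) (not_lt.2 (h2.trans hs))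

instance setup2 : Setup2 WW LL ell0 where
  card_ell := by
    rw [← card_tp, tp_ell0, card_ord]
    exact lam_LL.symm
  lt_ell := by
    intro b hb
    rw [← card_tp]
    have h1 := tp_lt.2 hb
    rw [tp_ell0] at h1
    rw [lt_ord] at h1
    exact h1.trans_eq lam_LL.symm
  cof := by
    have h1 : ∀ n, ∃ x : WW, tp x = (LL n).ord := fun n =>
      exists_tp_le (ord_le_ord.2 (beth_mono (natCast_lt_omega0 n).le))
    choose c hc using h1
    refine ⟨c, fun n => ?_, fun x hx => ?_⟩
    · rw [← tp_lt, hc, tp_ell0]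
      exact ord_lt_ord.2 (beth_strictMono (natCast_lt_omega0 n))
    · have h2 := tp_lt.2 hx
      rw [tp_ell0, lt_ord] at h2
      obtain ⟨n, hn⟩ := lt_lam_LL h2
      refine ⟨n, ?_⟩
      rw [← tp_lt, hc]
      exact lt_ord.2 hn
  nat := by
    have hω : (ω : Ordinal.{0}) < (beth (ω : Ordinal.{0})).ord := by
      rw [lt_ord, card_omega0]
      have h0 : beth (0 : Ordinal.{0}) < beth (ω : Ordinal.{0}) := beth_strictMono omega0_pos
      rwa [beth_zero] at h0
    have h1 : ∀ n : ℕ, ∃ x : WW, tp x = (n : Ordinal.{0}) := fun n =>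
      exists_tp_le ((natCast_lt_omega0 n).le.trans hω.le)
    choose e he using h1
    obtain ⟨w, hw⟩ := exists_tp_le hω.le
    refine ⟨e, fun m n h => ?_, w, ?_, ?_⟩
    · rw [← tp_lt, he, he]; exact Nat.cast_lt.2 h
    · rw [← tp_lt, hw, tp_ell0]; exact hω
    · ext x
      rw [mem_Iio, ← tp_lt, hw, lt_omega0]
      constructor
      · rintro ⟨n, rfl⟩
        exact ⟨n, he n⟩
      · rintro ⟨n, hn⟩
        refine ⟨n, ?_⟩
        rcases lt_trichotomy (e n) x with h | h | h
        · have := tp_lt.2 h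
          rw [he, hn] at this
          exact absurd this (lt_irrefl _)
        · exact h
        · have := tp_lt.2 h
          rw [he, hn] at this
          exact absurd this (lt_irrefl _)
  pow := by
    intro a ha
    have h1 := tp_lt.2 ha
    rw [tp_ell0, lt_ord, card_tp] at h1
    obtain ⟨n, hn⟩ := lt_lam_LL h1
    obtain ⟨b, hb⟩ : ∃ x : WW, tp x = (LL (n+1)).ord :=
      exists_tp_le (ord_le_ord.2 (beth_mono (natCast_lt_omega0 (n+1)).le))
    have hbc : #(Iio b) = LL (n+1) := by rw [← card_tp, hb, card_ord]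
    have h2 : #(Set (Iio a)) ≤ #(Iio b) := by
      rw [mk_set, hbc]
      have h3 : LL (n+1) = 2 ^ LL n := by
        change beth (((n+1 : ℕ) : Ordinal.{0})) = _
        rw [Nat.cast_succ, beth_add_one]
      rw [h3]
      exact power_le_power_left two_ne_zero hn.le
    obtain ⟨φ⟩ := h2
    refine ⟨b, ?_, ?_⟩
    · rw [← tp_lt, hb, tp_ell0]
      exact ord_lt_ord.2 (beth_strictMono (natCast_lt_omega0 (n+1)))
    · let ψ : Set (Iio a) → WW := fun S => (φ S).1
      have hψ : Function.Injective ψ := fun S T h => φ.injective (Subtype.ext h)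
      refine ⟨fun x => Subtype.val '' (Function.invFun ψ x), fun S hS => ?_⟩
      refine ⟨ψ {y | y.1 ∈ S}, (φ _).2, ?_⟩
      change Subtype.val '' Function.invFun ψ (ψ {y | y.1 ∈ S}) = S
      rw [Function.leftInverse_invFun hψ]
      ext y
      constructor
      · rintro ⟨z, hz, rfl⟩; exact hz
      · intro hy; exact ⟨⟨y, hS hy⟩, hy, rfl⟩

end Pool.Agent.FreeSets
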