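import Pool.Agent.Lib_MP_38e082_lc.Fun

/-!
# `λ` is a strong limit cardinal of cofinality `ω` in the generic model
-/

set_option linter.unusedSectionVars false

namespace Pool.Agent.FreeSets

open Pool.Agent.Forcing Pool.Agent.Forcing.Name Pool.Agent.Inner Set Cardinal

/-- `ell` is the element of `W` that corresponds to the strong limit cardinal `λ` -/
class Setup2 (W : Type) [LinearOrder W] [WellFoundedLT W] (L : ℕ → Cardinal.{0})
    (ell : W) : Prop extends Setup W L where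
  card_ell : #(Iio ell) = lam L
  lt_ell : ∀ b < ell, #(Iio b) < lam L
  cof : ∃ c : ℕ → W, (∀ n, c n < ell) ∧ ∀ x < ell, ∃ n, x < c n
  nat : ∃ e : ℕ → W, StrictMono e ∧ ∃ w < ell, range e = Iio w
  pow : ∀ a < ell, ∃ b < ell, ∃ h : W → Set W, ∀ S ⊆ Iio a, ∃ x < b, h x = S

variable {W : Type} [LinearOrder W] [WellFoundedLT W] {L : ℕ → Cardinal.{0}} {ell : W}
  [hS2 : Setup2 W L ell]
include hS2

/-! ### natural numbers -/

omit hS2 in
lemma feq_num_check {P : Type} [Preorder P] [OrderTop P] {e : ℕ → W} (he : StrictMono e) {w : W}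
    (hw : range e = Iio w) (n : ℕ) (p : P) : feq (num n : Name P) (check (e n)) p := by
  have hlow : ∀ n x, x < e n → ∃ m < n, x = e m := by
    intro n x hx
    have h1 : x ∈ range e := by
      rw [hw]
      have h2 : e n ∈ Iio w := hw ▸ mem_range_self n
      exact hx.trans h2
    obtain ⟨m, rfl⟩ := h1
    exact ⟨m, he.lt_iff_lt.1 hx, rfl⟩
  induction n generalizing p with
  | zero =>
    refine feq_of_forall (fun z q _ h => absurd h not_fmem_emptyName) (fun z q _ h => ?_)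
    rw [check_eq, fmem_checkSet] at h
    obtain ⟨r, _, x, hx, _⟩ := h q le_rfl
    obtain ⟨m, hm, _⟩ := hlow 0 x hx
    omega
  | succ n ih =>
    refine feq_of_forall (fun z q _ h => ?_) (fun z q _ h => ?_)
    · rw [fmem_num_succ] at h
      rw [check_eq, fmem_checkSet]
      intro r hr
      obtain ⟨s, hs, h1 | h1⟩ := h r hr
      · have h2 := fmem_congr_right (ih s) h1
        rw [check_eq, fmem_checkSet] at h2
        obtain ⟨t, ht, x, hx, h3⟩ := h2 s le_rfl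
        exact ⟨t, ht.trans hs, x, lt_trans hx (he (Nat.lt_succ_self n)), h3⟩
      · exact ⟨s, hs, e n, he (Nat.lt_succ_self n), feq_trans h1 (ih s)⟩
    · rw [check_eq, fmem_checkSet] at h
      rw [fmem_num_succ]
      intro r hr
      obtain ⟨s, hs, x, hx, h1⟩ := h r hr
      obtain ⟨m, hm, rfl⟩ := hlow _ _ hx
      refine ⟨s, hs, ?_⟩
      rcases Nat.lt_succ_iff_lt_or_eq.1 hm with h2 | h2
      · left
        refine fmem_congr_right (feq_symm (ih s)) ?_
        rw [check_eq]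
        exact fmem_checkSet.2 fun t ht => ⟨t, le_rfl, e m, he h2, feq_mono h1 ht⟩
      · right
        subst h2
        exact feq_trans h1 (feq_symm (ih s))

omit hS2 in
lemma feq_omega_check {P : Type} [Preorder P] [OrderTop P] {e : ℕ → W} (he : StrictMono e) {w : W}
    (hw : range e = Iio w) (p : P) : feq (omegaName : Name P) (check w) p := by
  refine feq_of_forall (fun z q _ h => ?_) (fun z q _ h => ?_)
  · rw [fmem_omegaName] at h
    rw [check_eq, fmem_checkSet]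
    intro r hr
    obtain ⟨s, hs, n, h1⟩ := h r hr
    have h2 : e n ∈ Iio w := hw ▸ mem_range_self n
    exact ⟨s, hs, e n, h2, feq_trans h1 (feq_num_check he hw n s)⟩
  · rw [check_eq, fmem_checkSet] at h
    rw [fmem_omegaName]
    intro r hr
    obtain ⟨s, hs, x, hx, h1⟩ := h r hr
    have h2 : x ∈ range e := by rw [hw]; exact hx
    obtain ⟨n, rfl⟩ := h2
    exact ⟨s, hs, n, feq_trans h1 (feq_symm (feq_num_check he hw n s))⟩

/-- `ω ∈ λ` -/
lemma om_mem_lam {𝔊 : Gen (Cond W L)} (hF : Full 𝔊) (h : check ell ∈ 𝔊.N) :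
    𝔊.E hF.rich.om (𝔊.cls ⟨check ell, h⟩) := by
  obtain ⟨e, he, w, hw, hr⟩ := hS2.nat
  refine (E_rep_check hF.decC (rep_self h)).2 ⟨w, hw, ?_⟩
  exact (rep_self hF.rich.omega_mem).congr (n := 0) (feq_omega_check he hr _)

/-! ### cofinality -/

omit hS2 in
/-- name of a cofinal map from `ω` to `λ` -/
noncomputable def cofName {P : Type} [Preorder P] [OrderTop P] (c : ℕ → W) : Name P :=
  Name.mk ℕ (fun n => opairName (num n) (check (c n))) (fun _ => ⊤)

omit [LinearOrder W] [WellFoundedLT W] hS2 in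
lemma rep_num_iff {P : Type} [Preorder P] [OrderTop P] {𝔊 : Gen P} (hR : Rich 𝔊) {z : 𝔊.M}
    {n : ℕ} :
    Rep 𝔊 z (num n) ↔ z = hR.nu n := rep_iff (hR.num_mem n)

lemma isCofinalMap {𝔊 : Gen (Cond W L)} (hF : Full 𝔊) (h : check ell ∈ 𝔊.N) {c : ℕ → W}
    (hc1 : ∀ n, c n < ell) (hc2 : ∀ x < ell, ∃ n, x < c n) (hcN : cofName c ∈ 𝔊.N) :
    IsCofinalMap 𝔊.E (𝔊.cls ⟨_, hcN⟩) hF.rich.om (𝔊.cls ⟨check ell, h⟩) := by
  have hcoh : Coherent 𝔊 (fun n : ℕ => (num n : Name (Cond W L)))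
      (fun n : ℕ => check (c n)) (fun _ => ⊤) := by
    intro i i' n _ _ h
    rw [feq_num_iff] at h
    subst h
    exact feq_refl _ _
  have hval : ∀ {u v : 𝔊.M}, Val 𝔊.E (𝔊.cls ⟨_, hcN⟩) u v ↔
      ∃ n, u = hF.rich.nu n ∧ Rep 𝔊 v (check (c n)) := by
    intro u v
    refine (val_mk hF.rich (A := fun n : ℕ => (num n : Name (Cond W L)))
      (B := fun n : ℕ => check (c n)) (c := fun _ => ⊤) hcN).trans ?_
    constructor
    · rintro ⟨i, n, _, h1, h2⟩
      exact ⟨i, (rep_num_iff hF.rich).1 h1, h2⟩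
    · rintro ⟨i, h1, h2⟩
      exact ⟨i, 0, le_top, (rep_num_iff hF.rich).2 h1, h2⟩
  refine ⟨⟨?_, ?_⟩, ?_⟩
  · intro z hz
    obtain ⟨u, v, h1, h2⟩ := isPair_of_mem_mk hF.rich (A := fun n : ℕ => (num n : Name (Cond W L)))
      (B := fun n : ℕ => check (c n)) (c := fun _ => ⊤) hcN hz
    obtain ⟨n, hu, hv⟩ := hval.1 h2
    exact ⟨u, v, hF.rich.mem_om.2 ⟨n, hu⟩,
      (E_rep_check hF.decC (rep_self h)).2 ⟨c n, hc1 n, hv⟩, h1⟩
  · intro u hu
    obtain ⟨n, hn⟩ := hF.rich.mem_om.1 hu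
    obtain ⟨v, _, hv⟩ := exists_val hF (A := fun n : ℕ => (num n : Name (Cond W L)))
      (B := fun n : ℕ => check (c n)) (c := fun _ => ⊤) hcN hcoh (i := n) (n := 0) le_top
      ((rep_num_iff hF.rich).2 hn)
    exact ⟨v, hv, fun v' hv' => val_unique hF (A := fun n : ℕ => (num n : Name (Cond W L)))
      (B := fun n : ℕ => check (c n)) (c := fun _ => ⊤) hcN hcoh hv' hv⟩
  · intro x hx
    obtain ⟨a, ha, hxa⟩ := (E_rep_check hF.decC (rep_self h)).1 hx
    obtain ⟨n, hn⟩ := hc2 a ha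
    obtain ⟨v, hv1, hv⟩ := exists_val hF (A := fun n : ℕ => (num n : Name (Cond W L)))
      (B := fun n : ℕ => check (c n)) (c := fun _ => ⊤) hcN hcoh (i := n) (n := 0) le_top
      (rep_self (hF.rich.num_mem n))
    exact ⟨_, v, hv, Or.inr ((E_iff_lt hF.decC hxa hv1).2 hn)⟩

/-! ### strong limit -/

omit [LinearOrder W] [WellFoundedLT W] hS2 in
lemma fo_ontoPow (i j k : ℕ) : FO.{1} (fun _ E v => OntoPow E (v i) (v j) (v k)) :=
  FO.and (FO.all (FO.all (FO.all (FO.imp (FO.val _ _ _) (FO.imp (FO.val _ _ _) (FO.eq _ _))))))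
    (FO.all (FO.imp (FO.sub _ _) (FO.ex (FO.and (FO.mem _ _) (FO.val _ _ _)))))

/-- the property: `v 2` is a value of `v 1` at an element of `v 0` -/
abbrev RHit : Fam.{1} := fun _ E v => ∃ t, E t (v 0) ∧ Val E (v 1) t (v 2)

omit [LinearOrder W] [WellFoundedLT W] hS2 in
lemma fo_hit : FO RHit := FO.ex (FO.and (FO.mem _ _) (FO.val _ _ _))

lemma strongLimit {𝔊 : Gen (Cond W L)} (hF : Full 𝔊) (h : check ell ∈ 𝔊.N) :
    StrongLimit 𝔊.E (𝔊.cls ⟨check ell, h⟩) := by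
  intro a ha
  obtain ⟨x, hx, hax⟩ := (E_rep_check hF.decC (rep_self h)).1 ha
  obtain ⟨a', rfl, n, hn⟩ := hax
  obtain ⟨y, hy, g, hg⟩ := hS2.pow x hx
  have hfo : FO.{1} (fun _ E v => ∃ b s, E b (v 1) ∧ OntoPow E s b (v 0)) :=
    FO.ex (FO.ex (FO.and (FO.mem 1 3) (fo_ontoPow 0 1 2)))
  have h1 : Frc (fun _ E v => ∃ b s, E b (v 1) ∧ OntoPow E s b (v 0))
      (ev omegaName [a'.1, check ell]) (𝔊.G n) := by
    refine frc_full hfo _ _ {check x, check y, funName (Iio y) (fun u => checkSet (g u))}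
      (by simp) ?_
    intro 𝔊 hF' h0 hSN hl
    have haN := hl a'.1 (by simp)
    have hellN := hl (check ell) (by simp)
    have hxN : check x ∈ 𝔊.N := hSN (by simp)
    have hyN : check y ∈ 𝔊.N := hSN (by simp)
    have hfN : funName (Iio y) (fun u => checkSet (g u)) ∈ 𝔊.N := hSN (by simp)
    have e1 : 𝔊.cls ⟨a'.1, haN⟩ = 𝔊.cls ⟨_, hxN⟩ := (𝔊.cls_eq).2 ⟨0, feq_mono hn h0⟩
    refine ⟨𝔊.cls ⟨_, hyN⟩, 𝔊.cls ⟨_, hfN⟩, ?_, ?_⟩
    · exact (E_rep_check hF'.decC (rep_self hellN)).2 ⟨y, hy, rep_self hyN⟩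
    · change OntoPow 𝔊.E _ _ (𝔊.cls ⟨a'.1, haN⟩)
      rw [e1]
      refine ⟨fun u v v' hv hv' => val_funName_unique hF' hfN hv hv', ?_⟩
      intro z hz
      obtain ⟨z', rfl⟩ := 𝔊.exists_rep z
      obtain ⟨m, hm⟩ := (truth_list fo_sub 𝔊 [z', ⟨_, hxN⟩]
        ⟨omegaName, hF'.rich.omega_mem⟩).1 hz
      have hm' : Frc RSub (ev omegaName [z'.1, checkSet (Iio x)]) (𝔊.G m) := by
        rw [← check_eq]; exact hm
      have h2 : Frc RHit (ev omegaName
          [check y, funName (Iio y) (fun u => checkSet (g u)), z'.1]) (𝔊.G m) := by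
        refine Frc.dense fo_hit fun q hq => ?_
        obtain ⟨r, hr, S, hSx, hS⟩ := exists_decide_sub (hS2.small x) (hm'.mono hq)
        obtain ⟨u, hu, hgu⟩ := hg S hSx
        refine ⟨r, hr, frc_full fo_hit _ _ {check u, checkSet S}
          (by simp) ?_⟩
        intro 𝔊' hF'' h0' hSN' hl'
        have hyN' := hl' (check y) (by simp)
        have hfN' := hl' (funName (Iio y) (fun u => checkSet (g u))) (by simp)
        have hzN' := hl' z'.1 (by simp)
        have huN' : check u ∈ 𝔊'.N := hSN' (by simp)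
        have hSN'' : checkSet S ∈ 𝔊'.N := hSN' (by simp)
        refine ⟨𝔊'.cls ⟨_, huN'⟩, ?_, ?_⟩
        · exact (E_rep_check hF''.decC (rep_self hyN')).2 ⟨u, hu, rep_self huN'⟩
        · change Val 𝔊'.E (𝔊'.cls ⟨_, hfN'⟩) _ (𝔊'.cls ⟨z'.1, hzN'⟩)
          rw [val_funName hF'' hfN']
          refine ⟨u, hu, rep_self huN', ?_⟩
          rw [hgu]
          exact rep_cls_iff.2 ⟨0, feq_mono hS h0'⟩
      exact Frc.true_list fo_hit 𝔊 [⟨_, hyN⟩, ⟨_, hfN⟩, z']
        ⟨omegaName, hF'.rich.omega_mem⟩ h2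
  exact Frc.true_list hfo 𝔊 [a', ⟨_, h⟩] ⟨omegaName, hF.rich.omega_mem⟩ h1

end Pool.Agent.FreeSets
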