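import Pool.Agent.Lib_MP_38e082_lc.Free
import Pool.Agent.Lib_MP_38e082_lc.Inst

/-!
# The model
-/

namespace Pool.Agent.FreeSets

open Pool.Agent.Forcing Pool.Agent.Forcing.Name Pool.Agent.Inner Set Cardinal

section
variable {W : Type} [LinearOrder W] [WellFoundedLT W] {L : ℕ → Cardinal.{0}} {ell : W}
  [hS2 : Setup2 W L ell]
include hS2

theorem exists_model_gen : ∃ (M : Type 1) (E : M → M → Prop), ModelsZFC E ∧ OmegaModel E ∧
    ∃ om l k f : M, SingularCofOmega E om l ∧ StrongLimit E l ∧ IsSuccCard E l k ∧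
      (∃ s, OntoPow E s k l) ∧ Counterexample E om l k f := by
  obtain ⟨c, hc1, hc2⟩ := hS2.cof
  obtain ⟨𝔊, hF, _, hSN⟩ := exists_full ({kapN W L, check ell, fN W L, bitN W L, cofName c} :
    Set (Name (Cond W L))) (by simp) ⊤
  have hk : kapN W L ∈ 𝔊.N := hSN (by simp)
  have hell : check ell ∈ 𝔊.N := hSN (by simp)
  have hf : fN W L ∈ 𝔊.N := hSN (by simp)
  have hb : bitN W L ∈ 𝔊.N := hSN (by simp)
  have hcN : cofName c ∈ 𝔊.N := hSN (by simp)
  have hell' : checkSet (Iio ell) ∈ 𝔊.N := by rw [← check_eq]; exact hell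
  have hcls : 𝔊.cls ⟨check ell, hell⟩ = 𝔊.cls ⟨_, hell'⟩ :=
    (rep_self hell).unique ((rep_iff hell).2 (by
      congr 1; exact Subtype.ext (check_eq ell).symm))
  refine ⟨𝔊.M, 𝔊.E, hF.rich.zfc, ?_, hF.rich.om, 𝔊.cls ⟨_, hell⟩, 𝔊.cls ⟨_, hk⟩,
    𝔊.cls ⟨_, hf⟩,
    ⟨hF.rich.isOmega_om, ?_, om_mem_lam hF hell, ⟨_, isCofinalMap hF hell hc1 hc2 hcN⟩⟩,
    strongLimit hF hell, ⟨?_, ?_, ?_⟩, ⟨_, ontoPow_bit hF hb hk ell hell⟩,
    isSetMapping hF hf hk, ?_, ?_⟩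
  · refine ⟨hF.rich.om, fun x => ?_⟩
    rw [hF.rich.mem_om]
    exact exists_congr fun n => (Gen.isNum_num hF.rich.num_mem n x).symm
  · rw [hcls]
    refine isCard_checkSet hF (isLowerSet_Iio ell) (fun a ha => ?_) hell'
    rw [hS2.card_ell]
    exact hS2.lt_ell a ha
  · refine isCard_checkSet hF isLowerSet_univ (fun a _ => ?_) hk
    exact (hS2.small a).trans_lt (card_univ_W (ell := ell))
  · exact (E_checkSet hF.rich hk).2 ⟨ell, mem_univ _, rep_self hell⟩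
  · intro a ha
    obtain ⟨x, _, hx⟩ := (E_checkSet hF.rich hk).1 ha
    have h1 : #(Iio x) ≤ #(Iio ell) := by rw [hS2.card_ell]; exact hS2.small x
    obtain ⟨φ⟩ := h1
    refine exists_inj_of_rep hF (A := Iio x) (B := Iio ell)
      (g := fun y => if h : y < x then (φ ⟨y, h⟩).1 else y) ?_ ?_
      (by rw [← check_eq]; exact hx) (by rw [← check_eq]; exact rep_self hell)
    · intro y hy
      have hy' : y < x := hy
      simp only [dif_pos hy']
      exact (φ ⟨y, hy'⟩).2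
    · intro y hy z hz hyz
      have hy' : y < x := hy
      have hz' : z < x := hz
      simp only [dif_pos hy', dif_pos hz'] at hyz
      have h2 := φ.injective (Subtype.ext hyz)
      exact congrArg Subtype.val h2
  · intro X i I h1 h2 h3 e h4
    obtain ⟨X', rfl⟩ := 𝔊.exists_rep X
    obtain ⟨i', rfl⟩ := 𝔊.exists_rep i
    obtain ⟨I', rfl⟩ := 𝔊.exists_rep I
    obtain ⟨e', rfl⟩ := 𝔊.exists_rep e
    obtain ⟨n, hn⟩ := (truth_list fo_bad 𝔊 [X', i', I', e', ⟨_, hk⟩, ⟨_, hf⟩, ⟨_, hell⟩]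
      ⟨omegaName, hF.rich.omega_mem⟩).1 ⟨h1, h2, h3, h4⟩
    exact not_bad _ _ _ _ _ hn
  · intro H h1 h2
    obtain ⟨H', rfl⟩ := 𝔊.exists_rep H
    obtain ⟨n, hn⟩ := (truth_list fo_free 𝔊 [H', ⟨_, hk⟩, ⟨_, hf⟩]
      ⟨omegaName, hF.rich.omega_mem⟩).1 ⟨h1, h2⟩
    have h3 : Frc REInj (ev omegaName [H'.1, omegaName]) (𝔊.G n) :=
      Frc.dense fo_einj fun q hq => frc_countable (ell := ell) (Frc.mono hn hq)
    exact Frc.true_list fo_einj 𝔊 [H', ⟨omegaName, hF.rich.omega_mem⟩]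
      ⟨omegaName, hF.rich.omega_mem⟩ h3

end

theorem exists_model : ∃ (M : Type 1) (E : M → M → Prop), ModelsZFC E ∧ OmegaModel E ∧
    ∃ om l k f : M, SingularCofOmega E om l ∧ StrongLimit E l ∧ IsSuccCard E l k ∧
      (∃ s, OntoPow E s k l) ∧ Counterexample E om l k f :=
  exists_model_gen (W := WW) (L := LL) (ell := ell0)

end Pool.Agent.FreeSets
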