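import Pool.Agent.Lib_MP_38e082_lc.Lam

/-!
# The generic set mapping
-/

set_option linter.unusedSectionVars false

namespace Pool.Agent.FreeSets

open Pool.Agent.Forcing Pool.Agent.Forcing.Name Pool.Agent.Inner Set Cardinal

section gen
variable {W : Type} [LinearOrder W] [WellFoundedLT W] {L : ℕ → Cardinal.{0}} [hS : Setup W L]
include hS

/-- name of the function on `κ` whose values below the length of a condition `p` are given by
`V p` -/
noncomputable def genName (V : Cond W L → W → Set W) : Name (Cond W L) :=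
  Name.mk (Σ p : Cond W L, Iio p.len) (fun t => opairName (check t.2.1) (checkSet (V t.1 t.2.1)))
    (fun t => t.1)

/-- the values do not change in extensions -/
def Stable (V : Cond W L → W → Set W) : Prop := ∀ q p, q ≤ p → ∀ d < p.len, V q d = V p d

lemma coherent_genName {V : Cond W L → W → Set W} (hV : Stable V) (𝔊 : Gen (Cond W L)) :
    Coherent 𝔊 (fun t : Σ p : Cond W L, Iio p.len => check t.2.1)
      (fun t => checkSet (V t.1 t.2.1)) (fun t => t.1) := by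
  rintro ⟨p, d, hd⟩ ⟨p', d', hd'⟩ n h1 h2 h
  have h3 : d = d' := feq_check_iff.1 h
  subst h3
  have e1 := hV _ _ h1 d hd
  have e2 := hV _ _ h2 d hd'
  have e3 : V p d = V p' d := e1.symm.trans e2
  change feq (checkSet (V p d)) (checkSet (V p' d)) _
  rw [e3]
  exact feq_refl _ _

lemma val_genName {V : Cond W L → W → Set W} (hV : Stable V) {𝔊 : Gen (Cond W L)} (hF : Full 𝔊)
    (h : genName V ∈ 𝔊.N) {u v : 𝔊.M} : Val 𝔊.E (𝔊.cls ⟨_, h⟩) u v ↔
      ∃ n d, d < (𝔊.G n).len ∧ Rep 𝔊 u (check d) ∧ Rep 𝔊 v (checkSet (V (𝔊.G n) d)) := by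
  refine (val_mk hF.rich (A := fun t : Σ p : Cond W L, Iio p.len => check t.2.1)
    (B := fun t => checkSet (V t.1 t.2.1)) (c := fun t => t.1) h).trans ?_
  constructor
  · rintro ⟨⟨p, d, hd⟩, n, h1, h2, h3⟩
    refine ⟨n, d, lt_of_lt_of_le hd h1.len, h2, ?_⟩
    rw [hV _ _ h1 d hd]
    exact h3
  · rintro ⟨n, d, h1, h2, h3⟩
    exact ⟨⟨𝔊.G n, d, h1⟩, n, le_rfl, h2, h3⟩

lemma exists_val_genName {V : Cond W L → W → Set W} (hV : Stable V) {𝔊 : Gen (Cond W L)}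
    (hF : Full 𝔊) (h : genName V ∈ 𝔊.N) {u : 𝔊.M} {d : W} (hu : Rep 𝔊 u (check d)) :
    ∃ v n, d < (𝔊.G n).len ∧ Rep 𝔊 v (checkSet (V (𝔊.G n) d)) ∧ Val 𝔊.E (𝔊.cls ⟨_, h⟩) u v := by
  obtain ⟨n, hn⟩ := hF.len hu
  obtain ⟨v, h1, h2⟩ := exists_val hF (A := fun t : Σ p : Cond W L, Iio p.len => check t.2.1)
    (B := fun t => checkSet (V t.1 t.2.1)) (c := fun t => t.1) h (coherent_genName hV 𝔊)
    (i := ⟨𝔊.G n, d, hn⟩) (n := n) le_rfl hu
  exact ⟨v, n, hn, h1, h2⟩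

lemma val_genName_unique {V : Cond W L → W → Set W} (hV : Stable V) {𝔊 : Gen (Cond W L)}
    (hF : Full 𝔊) (h : genName V ∈ 𝔊.N) {u v v' : 𝔊.M}
    (h1 : Val 𝔊.E (𝔊.cls ⟨_, h⟩) u v) (h2 : Val 𝔊.E (𝔊.cls ⟨_, h⟩) u v') : v = v' :=
  val_unique hF (A := fun t : Σ p : Cond W L, Iio p.len => check t.2.1)
    (B := fun t => checkSet (V t.1 t.2.1)) (c := fun t => t.1) h (coherent_genName hV 𝔊) h1 h2

/-! ### the two generic functions -/

lemma stable_bit : Stable (fun (p : Cond W L) d => p.bit d) := fun _ _ h d hd => h.bit d hd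

/-- the value of the generic set mapping at `d` -/
def down (p : Cond W L) (d : W) : Set W := {x | x < d ∧ ∀ j, ¬ p.H j x d}

lemma stable_down : Stable (down : Cond W L → W → Set W) := by
  intro q p h d hd
  ext x
  constructor
  · rintro ⟨h1, h2⟩
    exact ⟨h1, fun j hj => h2 j ((h.H j x d hd).2 hj)⟩
  · rintro ⟨h1, h2⟩
    exact ⟨h1, fun j hj => h2 j ((h.H j x d hd).1 hj)⟩

variable (W L) in
/-- name of the generic set mapping -/
noncomputable abbrev fN : Name (Cond W L) := genName down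

variable (W L) in
/-- name of a generic enumeration of the subsets of `λ` -/
noncomputable abbrev bitN : Name (Cond W L) := genName (fun p d => p.bit d)

lemma isSetMapping {𝔊 : Gen (Cond W L)} (hF : Full 𝔊) (hf : fN W L ∈ 𝔊.N)
    (hk : kapN W L ∈ 𝔊.N) : IsSetMapping 𝔊.E (𝔊.cls ⟨_, hf⟩) (𝔊.cls ⟨_, hk⟩) := by
  refine ⟨?_, ?_, ?_⟩
  · intro z hz
    obtain ⟨u, v, h1, h2⟩ := isPair_of_mem_mk hF.rich
      (A := fun t : Σ p : Cond W L, Iio p.len => check t.2.1)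
      (B := fun t => checkSet (down t.1 t.2.1)) (c := fun t => t.1) hf hz
    obtain ⟨n, d, _, hu, _⟩ := (val_genName stable_down hF hf).1 h2
    exact ⟨u, v, (E_checkSet hF.rich hk).2 ⟨d, mem_univ d, hu⟩, h1⟩
  · intro u hu
    obtain ⟨d, _, hd⟩ := (E_checkSet hF.rich hk).1 hu
    obtain ⟨v, n, _, _, hv⟩ := exists_val_genName stable_down hF hf hd
    exact ⟨v, hv, fun v' hv' => val_genName_unique stable_down hF hf hv' hv⟩
  · intro u v _ hv t ht
    obtain ⟨n, d, _, hu, hvr⟩ := (val_genName stable_down hF hf).1 hv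
    obtain ⟨x, hx, htr⟩ := (E_rep_checkSet hF.decC hvr).1 ht
    exact (E_rep_check hF.decC hu).2 ⟨x, hx.1, htr⟩

/-- every subset of `check a` is listed by `bitN` -/
lemma ontoPow_bit {𝔊 : Gen (Cond W L)} (hF : Full 𝔊) (hb : bitN W L ∈ 𝔊.N)
    (hk : kapN W L ∈ 𝔊.N) (a : W) (ha : check a ∈ 𝔊.N) :
    OntoPow 𝔊.E (𝔊.cls ⟨_, hb⟩) (𝔊.cls ⟨_, hk⟩) (𝔊.cls ⟨_, ha⟩) := by
  refine ⟨fun u v v' hv hv' => val_genName_unique stable_bit hF hb hv hv', ?_⟩
  intro z hz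
  obtain ⟨z', rfl⟩ := 𝔊.exists_rep z
  obtain ⟨m, hm⟩ := (truth_list fo_sub 𝔊 [z', ⟨_, ha⟩]
    ⟨omegaName, hF.rich.omega_mem⟩).1 hz
  have hm' : Frc RSub (ev omegaName [z'.1, checkSet (Iio a)]) (𝔊.G m) := by
    rw [← check_eq]; exact hm
  have h2 : Frc RHit (ev omegaName [kapN W L, bitN W L, z'.1]) (𝔊.G m) := by
    refine Frc.dense fo_hit fun q hq => ?_
    obtain ⟨r, hr, S, _, hSz⟩ := exists_decide_sub (hS.small a) (hm'.mono hq)
    obtain ⟨r', hr', hlen, hbit⟩ := Cond.exists_one_point r S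
    refine ⟨r', hr'.trans hr, frc_full fo_hit _ _ {check r.len, checkSet S} (by simp) ?_⟩
    intro 𝔊' hF' h0 hSN hl
    have hkN := hl (kapN W L) (by simp)
    have hbN := hl (bitN W L) (by simp)
    have hzN := hl z'.1 (by simp)
    have hrN : check r.len ∈ 𝔊'.N := hSN (by simp)
    have hSN' : checkSet S ∈ 𝔊'.N := hSN (by simp)
    refine ⟨𝔊'.cls ⟨_, hrN⟩, ?_, ?_⟩
    · exact (E_checkSet hF'.rich hkN).2 ⟨r.len, mem_univ _, rep_self hrN⟩
    · change Val 𝔊'.E (𝔊'.cls ⟨_, hbN⟩) _ (𝔊'.cls ⟨z'.1, hzN⟩)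
      rw [val_genName stable_bit hF' hbN]
      have hlt : r.len < r'.len := by rw [hlen]; exact lt_suc L _
      refine ⟨0, r.len, hlt.trans_le h0.len, rep_self hrN, ?_⟩
      have e : (𝔊'.G 0).bit r.len = S := (h0.bit _ hlt).trans hbit
      change Rep 𝔊' _ (checkSet ((𝔊'.G 0).bit r.len))
      rw [e]
      exact rep_cls_iff.2 ⟨0, feq_mono hSz (h0.trans hr')⟩
  exact Frc.true_list fo_hit 𝔊 [⟨_, hk⟩, ⟨_, hb⟩, z'] ⟨omegaName, hF.rich.omega_mem⟩ h2

omit hS [LinearOrder W] [WellFoundedLT W] in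
lemma IsInj.mono {M : Type*} {E : M → M → Prop} {i a b c : M} (h : IsInj E i a b)
    (hbc : ∀ x, E x a → ∀ y, Val E i x y → E y b → E y c) (hp : ∀ z x y, IsPair E z x y →
      E z i → Val E i x y) : IsInj E i a c := by
  refine ⟨⟨fun z hz => ?_, h.1.2⟩, h.2⟩
  obtain ⟨x, y, hx, hy, hxy⟩ := h.1.1 z hz
  exact ⟨x, y, hx, hbc x hx y (hp z x y hxy hz) hy, hxy⟩

end gen

end Pool.Agent.FreeSets
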